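import Pool.Agent.R567.MSub.Basic
import Pool.Agent.R138.PgCenter

set_option autoImplicit false

/-!
Complexes of faces of 0/1-polytopes, refinements of matroid subdivisions.
-/

namespace Pool.Agent.FMS75

open Set Pool.Agent.R567.MSub
open Pool.Agent.R138.Pg (fpoly ind mem_fpoly ind_mem ind_mem_iff fpoly_mono BF Sub D NL)

variable {n : ℕ}

/-! ### faces -/

theorem face_refl {P : Set (Fin n → ℝ)} (hP : Convex ℝ P) : IsFace P P := ⟨hP, IsExtreme.rfl⟩

theorem face_trans {P F G : Set (Fin n → ℝ)} (h1 : IsFace P F) (h2 : IsFace F G) : IsFace P G :=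
  ⟨h2.1, h1.2.trans h2.2⟩

theorem face_mono {P Q G : Set (Fin n → ℝ)} (h1 : IsFace P G) (hQ : Q ⊆ P) (hG : G ⊆ Q) :
    IsFace Q G :=
  ⟨h1.1, h1.2.mono hQ hG⟩

theorem face_inter {P F G : Set (Fin n → ℝ)} (h1 : IsFace P F) (h2 : IsFace P G) :
    IsFace P (F ∩ G) :=
  ⟨h1.1.inter h2.1, h1.2.inter h2.2⟩

theorem face_subset {P F : Set (Fin n → ℝ)} (h1 : IsFace P F) : F ⊆ P := h1.2.subset

/-- the points where a linear functional attains an upper bound form a face -/
theorem face_of_le {P : Set (Fin n → ℝ)} (hP : Convex ℝ P) (f : (Fin n → ℝ) →ₗ[ℝ] ℝ) (c : ℝ)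
    (h : ∀ x ∈ P, f x ≤ c) : IsFace P (P ∩ {x | f x = c}) := by
  refine ⟨hP.inter (convex_hyperplane f.isLinear c), inter_subset_left, ?_⟩
  rintro x hx y hy z ⟨hz, hzc⟩ ⟨a, b, ha, hb, hab, rfl⟩
  refine ⟨hx, ?_⟩
  have h1 := h x hx
  have h2 := h y hy
  simp only [Set.mem_ofPred_eq, map_add, map_smul, smul_eq_mul] at hzc ⊢
  apply le_antisymm h1
  by_contra hcon
  push Not at hcon
  have h3 := mul_lt_mul_of_pos_left hcon ha
  have h4 := mul_le_mul_of_nonneg_left h2 hb.le
  have h5 : a * c + b * c = c := by rw [← add_mul, hab, one_mul]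
  linarith

/-- a face of a 0/1-polytope is spanned by its vertices -/
theorem face_eq_fpoly {N : Finset (Fin n) → Prop} {F : Set (Fin n → ℝ)}
    (hF : IsFace (fpoly N) F) : F = fpoly (fun B => N B ∧ ind B ∈ F) := by
  apply subset_antisymm
  · intro x hx
    obtain ⟨w, w0, wN, w1, wx⟩ := mem_fpoly.1 (face_subset hF hx)
    rw [mem_fpoly]
    refine ⟨w, w0, ?_, w1, wx⟩
    intro B0 hB0
    refine ⟨wN B0 hB0, ?_⟩
    have ht : 0 < w B0 := lt_of_le_of_ne (w0 B0) (Ne.symm hB0)
    set t : ℝ := w B0 with htdef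
    set y : Fin n → ℝ := fun e => (1 + t) * x e - t * ind B0 e with hy
    have hyN : y ∈ fpoly N := by
      rw [mem_fpoly]
      refine ⟨fun B => (1 + t) * w B - t * (if B = B0 then 1 else 0), ?_, ?_, ?_, ?_⟩
      · intro B
        by_cases h : B = B0
        · subst h
          simp only [if_true]
          rw [← htdef]
          nlinarith
        · simp only [h, if_false]
          have := w0 B
          nlinarith
      · intro B hB
        by_cases h : B = B0
        · rw [h]; exact wN B0 hB0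
        · apply wN
          intro h0
          apply hB
          simp [h, h0]
      · rw [Finset.sum_sub_distrib, ← Finset.mul_sum, w1, ← Finset.mul_sum]
        simp
      · intro e
        have : ∀ B : Finset (Fin n), ((1 + t) * w B - t * (if B = B0 then 1 else 0)) * ind B e =
            (1 + t) * (w B * ind B e) - t * (if B = B0 then ind B e else 0) := by
          intro B
          split_ifs <;> ring
        simp only [this]
        rw [Finset.sum_sub_distrib, ← Finset.mul_sum, wx e, ← Finset.mul_sum]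
        simp [hy]
    refine hF.2.left_mem_of_mem_openSegment (ind_mem (wN B0 hB0)) hyN hx ?_
    have h1t : (0 : ℝ) < 1 + t := by linarith
    refine ⟨t / (1 + t), 1 / (1 + t), by positivity, by positivity, by field_simp; ring, ?_⟩
    funext e
    simp only [hy, Pi.add_apply, Pi.smul_apply, smul_eq_mul]
    field_simp
    ring
  · refine convexHull_min ?_ hF.1
    rintro _ ⟨B, ⟨_, hB⟩, rfl⟩
    exact hB

theorem fpoly_finite (N : Finset (Fin n) → Prop) :
    ∃ S : Set (Fin n → ℝ), S.Finite ∧ fpoly N = convexHull ℝ S := by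
  refine ⟨{x | ∃ B, N B ∧ x = ind B}, ?_, rfl⟩
  apply (Set.finite_range (ind : Finset (Fin n) → Fin n → ℝ)).subset
  rintro _ ⟨B, _, rfl⟩
  exact ⟨B, rfl⟩

theorem convex_fp (N : Finset (Fin n) → Prop) : Convex ℝ (fpoly N) := convex_convexHull ℝ _

/-! ### matroids and families -/

/-- the predicate of the bases -/
def bp (M : Matroid (Fin n)) : Finset (Fin n) → Prop := fun B => M.IsBase ↑B

theorem vec_coe (B : Finset (Fin n)) : vec (B : Set (Fin n)) = ind B := by
  funext e
  simp [vec, ind, Set.indicator]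

theorem polytope_eq (M : Matroid (Fin n)) : polytope M = fpoly (bp M) := by
  unfold polytope fpoly
  congr 1
  ext x
  constructor
  · rintro ⟨B, hB, rfl⟩
    obtain ⟨C, rfl⟩ := (Set.toFinite B).exists_finset_coe
    exact ⟨C, hB, vec_coe C⟩
  · rintro ⟨B, hB, rfl⟩
    exact ⟨(B : Set (Fin n)), hB, (vec_coe B).symm⟩

theorem bf_bp (N : Matroid (Fin n)) {r : ℕ} (hcard : ∀ B : Finset (Fin n), bp N B → B.card = r) :
    BF r (bp N) := by
  refine ⟨hcard, ?_, ?_⟩
  · obtain ⟨B, hB⟩ := N.exists_isBase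
    obtain ⟨C, rfl⟩ := (Set.toFinite B).exists_finset_coe
    exact ⟨C, hB⟩
  · intro A B hA hB e he heB
    obtain ⟨y, hy, hy2⟩ := Matroid.IsBase.exchange hA hB (e := e)
      ⟨by exact_mod_cast he, by exact_mod_cast heB⟩
    refine ⟨y, by exact_mod_cast hy.1, by exact_mod_cast hy.2, ?_⟩
    unfold bp
    convert hy2 using 1
    push_cast
    rfl

/-- the matroid of a family with the exchange property -/
def toMat {r : ℕ} (N : Finset (Fin n) → Prop) (h : BF r N) : Matroid (Fin n) :=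
  Matroid.ofIsBaseOfFinite (E := univ) finite_univ
    (fun B : Set (Fin n) => ∃ C : Finset (Fin n), (C : Set (Fin n)) = B ∧ N C)
    (by
      obtain ⟨B, hB⟩ := h.ne
      exact ⟨B, B, rfl, hB⟩)
    (by
      rintro _ _ ⟨A, rfl, hA⟩ ⟨B, rfl, hB⟩ e ⟨he, heB⟩
      obtain ⟨f, hf, hfA, hN⟩ := h.exch A B hA hB e (by exact_mod_cast he)
        (by exact_mod_cast heB)
      refine ⟨f, ⟨by exact_mod_cast hf, by exact_mod_cast hfA⟩, _, ?_, hN⟩
      push_cast
      rfl)
    (fun _ _ => subset_univ _)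

theorem toMat_E {r : ℕ} {N : Finset (Fin n) → Prop} {h : BF r N} : (toMat N h).E = univ := rfl

theorem bp_toMat {r : ℕ} {N : Finset (Fin n) → Prop} {h : BF r N} : bp (toMat N h) = N := by
  funext B
  apply propext
  constructor
  · rintro ⟨C, hC, hN⟩
    rwa [← Finset.coe_injective hC]
  · intro hN
    exact ⟨B, rfl, hN⟩

theorem polytope_toMat {r : ℕ} {N : Finset (Fin n) → Prop} {h : BF r N} :
    polytope (toMat N h) = fpoly N := by
  rw [polytope_eq, bp_toMat]

/-! ### the complex of the faces of a family of 0/1-polytopes -/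

/-- the faces of the polytopes of the families in `𝓠` -/
def faces (𝓠 : Set (Finset (Fin n) → Prop)) : Set (Set (Fin n → ℝ)) :=
  {F | ∃ N ∈ 𝓠, IsFace (fpoly N) F}

theorem faces_complex {𝓠 : Set (Finset (Fin n) → Prop)}
    (h : ∀ N ∈ 𝓠, ∀ N' ∈ 𝓠, IsFace (fpoly N) (fpoly N ∩ fpoly N')) :
    IsPolytopalComplex (faces 𝓠) where
  finite := by
    apply (Set.finite_range (fpoly : (Finset (Fin n) → Prop) → Set (Fin n → ℝ))).subset
    rintro F ⟨N, _, hF⟩
    exact ⟨_, (face_eq_fpoly hF).symm⟩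
  polytope := by
    rintro F ⟨N, _, hF⟩
    rw [face_eq_fpoly hF]
    exact fpoly_finite _
  face := by
    rintro F ⟨N, hN, hF⟩ G hG
    exact ⟨N, hN, face_trans hF hG⟩
  inter := by
    have key : ∀ F ∈ faces 𝓠, ∀ G ∈ faces 𝓠, IsFace F (F ∩ G) := by
      rintro F ⟨N, hN, hF⟩ G ⟨N', hN', hG⟩
      have h1 := h N hN N' hN'
      have h2 := h N' hN' N hN
      rw [inter_comm] at h2
      have h3 : IsFace (fpoly N ∩ fpoly N') (F ∩ (fpoly N ∩ fpoly N')) :=
        face_mono (face_inter hF h1) inter_subset_left inter_subset_right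
      have h4 : IsFace (fpoly N ∩ fpoly N') (G ∩ (fpoly N ∩ fpoly N')) :=
        face_mono (face_inter hG h2) inter_subset_right inter_subset_right
      have h5 := face_inter h3 h4
      have h6 : F ∩ (fpoly N ∩ fpoly N') ∩ (G ∩ (fpoly N ∩ fpoly N')) = F ∩ G := by
        ext x
        have a1 := @face_subset n (fpoly N) F hF x
        have a2 := @face_subset n (fpoly N') G hG x
        simp only [mem_inter_iff]
        tauto
      rw [h6] at h5
      have h7 : IsFace (F ∩ (fpoly N ∩ fpoly N')) (F ∩ G) := by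
        refine face_mono h5 inter_subset_right ?_
        intro x hx
        exact ⟨hx.1, face_subset hF hx.1, face_subset hG hx.2⟩
      have h8 : IsFace F (F ∩ (fpoly N ∩ fpoly N')) :=
        face_mono (face_inter hF h1) (face_subset hF) inter_subset_left
      exact face_trans h8 h7
    intro F hF G hG
    refine ⟨key F hF G hG, ?_⟩
    rw [inter_comm]
    exact key G hG F hF

theorem mem_faces {𝓠 : Set (Finset (Fin n) → Prop)} {N : Finset (Fin n) → Prop} (hN : N ∈ 𝓠) :
    fpoly N ∈ faces 𝓠 := ⟨N, hN, face_refl (convex_fp N)⟩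

theorem faces_subdivision {r : ℕ} {𝓠 : Set (Finset (Fin n) → Prop)} (hbf : ∀ N ∈ 𝓠, BF r N)
    (h : ∀ N ∈ 𝓠, ∀ N' ∈ 𝓠, IsFace (fpoly N) (fpoly N ∩ fpoly N')) {M : Matroid (Fin n)}
    (hcov : ∀ x ∈ fpoly (bp M), ∃ N ∈ 𝓠, x ∈ fpoly N) (hsub : ∀ N ∈ 𝓠, ∀ B, N B → bp M B) :
    IsMatroidSubdivision M (faces 𝓠) where
  isComplex := faces_complex h
  union := by
    rw [polytope_eq]
    apply subset_antisymm
    · rintro x ⟨F, ⟨N, hN, hF⟩, hx⟩
      exact fpoly_mono (hsub N hN) (face_subset hF hx)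
    · intro x hx
      obtain ⟨N, hN, hxN⟩ := hcov x hx
      exact ⟨_, mem_faces hN, hxN⟩
  vertices := by
    rintro v ⟨N, hN, hF⟩
    have h1 := face_eq_fpoly hF
    have h2 : ∃ B, N B ∧ ind B ∈ ({v} : Set (Fin n → ℝ)) := by
      by_contra hcon
      push Not at hcon
      have h3 : ({v} : Set (Fin n → ℝ)) ⊆ ∅ := by
        rw [h1]
        intro x hx
        obtain ⟨w, w0, wN, w1, wx⟩ := mem_fpoly.1 hx
        obtain ⟨C, hC⟩ : ∃ C, w C ≠ 0 := by
          by_contra hcon2
          push Not at hcon2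
          simp [hcon2] at w1
        exact absurd (wN C hC).2 (hcon C (wN C hC).1)
      exact h3 rfl
    obtain ⟨B, hB, hBv⟩ := h2
    have hv : v = vec (B : Set (Fin n)) := by rw [vec_coe]; exact hBv.symm
    rw [hv]
    refine ⟨convex_singleton _, ?_⟩
    have h4 : vec (B : Set (Fin n)) ∈ (polytope M).extremePoints ℝ :=
      vec_extreme (fun x hx i => mem_cube hx i) (vec_mem_polytope (hsub N hN B hB))
    exact isExtreme_singleton.2 h4
  cells := by
    rintro F ⟨⟨N, hN, hF⟩, hmax⟩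
    have h1 := hmax _ (mem_faces hN) (face_subset hF)
    exact ⟨toMat N (hbf N hN), rfl, by rw [polytope_toMat, h1]⟩

/-! ### refinements -/

/-- every member of `C'` is contained in a member of `C` -/
def Refines (C' C : Set (Set (Fin n → ℝ))) : Prop := ∀ Q ∈ C', ∃ R ∈ C, Q ⊆ R

theorem Refines.refl (C : Set (Set (Fin n → ℝ))) : Refines C C := fun Q hQ => ⟨Q, hQ, Subset.rfl⟩

theorem Refines.trans {C D E : Set (Set (Fin n → ℝ))} (h1 : Refines C D) (h2 : Refines D E) :
    Refines C E := by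
  intro Q hQ
  obtain ⟨R, hR, h⟩ := h1 Q hQ
  obtain ⟨R', hR', h'⟩ := h2 R hR
  exact ⟨R', hR', h.trans h'⟩

theorem subset_of_refines {C D : Set (Set (Fin n → ℝ))} (hC : IsPolytopalComplex C)
    (hD : IsPolytopalComplex D) (h1 : Refines C D) (h2 : Refines D C) : C ⊆ D := by
  intro Q hQ
  obtain ⟨R, hR, hQR⟩ := h1 Q hQ
  obtain ⟨Q', hQ', hRQ'⟩ := h2 R hR
  have h3 := (hC.inter Q hQ Q' hQ').2
  rw [inter_eq_left.2 (hQR.trans hRQ')] at h3
  exact hD.face R hR Q (face_mono h3 hRQ' hQR)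

theorem member_eq_fpoly {M : Matroid (Fin n)} {C : Set (Set (Fin n → ℝ))}
    (hC : IsMatroidSubdivision M C) {Q : Set (Fin n → ℝ)} (hQ : Q ∈ C) :
    ∃ N : Finset (Fin n) → Prop, fpoly N = Q := by
  obtain ⟨R, hR, hQR⟩ := exists_cell_of_mem hC.isComplex hQ
  obtain ⟨N, _, rfl⟩ := hC.cells R hR
  have h3 := (hC.isComplex.inter Q hQ _ hR.1).2
  rw [inter_eq_left.2 hQR, polytope_eq] at h3
  exact ⟨_, (face_eq_fpoly h3).symm⟩

/-- a matroid subdivision without proper refinements -/
def IsFinest (M : Matroid (Fin n)) (C : Set (Set (Fin n → ℝ))) : Prop :=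
  IsMatroidSubdivision M C ∧
    ∀ C' : Set (Set (Fin n → ℝ)), IsMatroidSubdivision M C' → Refines C' C → C' = C

theorem exists_finest {M : Matroid (Fin n)} {C₀ : Set (Set (Fin n → ℝ))}
    (hC₀ : IsMatroidSubdivision M C₀) : ∃ C, IsFinest M C ∧ Refines C C₀ := by
  set X : Set (Set (Set (Fin n → ℝ))) := {C | IsMatroidSubdivision M C ∧ Refines C C₀} with hX
  have hfin : X.Finite := by
    apply Set.Finite.subset (Set.Finite.powerset
      (Set.finite_range (fpoly : (Finset (Fin n) → Prop) → Set (Fin n → ℝ))))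
    rintro C ⟨hC, _⟩ Q hQ
    obtain ⟨N, hN⟩ := member_eq_fpoly hC hQ
    exact ⟨N, hN⟩
  obtain ⟨C, hCX, hmin⟩ := hfin.exists_minimalFor
    (fun C : Set (Set (Fin n → ℝ)) => {Y : Set (Fin n → ℝ) | ∃ Q ∈ C, Y ⊆ Q}) X
    ⟨C₀, hC₀, Refines.refl _⟩
  refine ⟨C, ⟨hCX.1, ?_⟩, hCX.2⟩
  intro C' hC' href
  have h1 : Refines C C' := by
    have h2 := hmin (j := C') ⟨hC', href.trans hCX.2⟩ (by
      rintro Y ⟨Q, hQ, hY⟩
      obtain ⟨R, hR, hQR⟩ := href Q hQ
      exact ⟨R, hR, hY.trans hQR⟩)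
    intro Q hQ
    exact h2 ⟨Q, hQ, Subset.rfl⟩
  exact subset_antisymm (subset_of_refines hC'.isComplex hCX.1.isComplex href h1)
    (subset_of_refines hCX.1.isComplex hC'.isComplex h1 href)

end Pool.Agent.FMS75
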