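import Pool.Agent.FMS75.Reduce

set_option autoImplicit false

/-!
Rank three matroids of sets of lines, and the subdivision of the third hypersimplex given by such a
matroid.
-/

namespace Pool.Agent.FMS75

open Finset Pool.Agent.R138.Pg

section
variable {α : Type*} [Fintype α] [DecidableEq α]

theorem sum_le {N : Finset α → Prop} {x : α → ℝ} (hx : x ∈ fpoly N) (K : Finset α) (k : ℕ)
    (h : ∀ B, N B → (B ∩ K).card ≤ k) : ∑ e ∈ K, x e ≤ k := by
  obtain ⟨w, hw⟩ := mem_iff_rep.1 hx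
  rw [hw.sum_eq]
  calc ∑ B, w B * ((B ∩ K).card : ℝ) ≤ ∑ B, w B * (k : ℝ) := by
        apply sum_le_sum
        intro B _
        by_cases hB : w B = 0
        · simp [hB]
        · exact mul_le_mul_of_nonneg_left (by exact_mod_cast h B (hw.supp B hB)) (hw.nn B)
    _ = k := by rw [← sum_mul, hw.one, one_mul]

theorem sum_ge {N : Finset α → Prop} {x : α → ℝ} (hx : x ∈ fpoly N) (K : Finset α) (k : ℕ)
    (h : ∀ B, N B → k ≤ (B ∩ K).card) : (k : ℝ) ≤ ∑ e ∈ K, x e := by
  obtain ⟨w, hw⟩ := mem_iff_rep.1 hx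
  rw [hw.sum_eq]
  calc (k : ℝ) = ∑ B, w B * (k : ℝ) := by rw [← sum_mul, hw.one, one_mul]
    _ ≤ ∑ B, w B * ((B ∩ K).card : ℝ) := by
        apply sum_le_sum
        intro B _
        by_cases hB : w B = 0
        · simp [hB]
        · exact mul_le_mul_of_nonneg_left (by exact_mod_cast h B (hw.supp B hB)) (hw.nn B)

/-- two distinct lines have at most one common point -/
def IsLin (𝓛 : Finset (Finset α)) : Prop := ∀ l ∈ 𝓛, ∀ m ∈ 𝓛, l ≠ m → (l ∩ m).card ≤ 1

theorem IsLin.eq {𝓛 : Finset (Finset α)} (h : IsLin 𝓛) {l m : Finset α} (hl : l ∈ 𝓛)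
    (hm : m ∈ 𝓛) {X : Finset α} (hX : 2 ≤ X.card) (h1 : X ⊆ l) (h2 : X ⊆ m) : l = m := by
  by_contra hne
  have h3 := h l hl m hm hne
  have h4 := card_le_card (subset_inter h1 h2)
  omega

/-- all triples -/
def TR (B : Finset α) : Prop := B.card = 3

/-- the triples which are not contained in a line -/
def LB3 (𝓛 : Finset (Finset α)) (B : Finset α) : Prop := B.card = 3 ∧ ∀ l ∈ 𝓛, ¬ B ⊆ l

/-- the triples with at least two elements in `l` -/
def NB3 (l : Finset α) (B : Finset α) : Prop := B.card = 3 ∧ 2 ≤ (B ∩ l).card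

theorem exists_diff {A B : Finset α} (h : B.card = A.card) {e : α} (he : e ∈ A) (heB : e ∉ B) :
    ∃ f ∈ B, f ∉ A := by
  by_contra hcon
  push Not at hcon
  have := eq_of_subset_of_card_le (show B ⊆ A from hcon) (by rw [h])
  exact heB (this ▸ he)

theorem card_repl {A : Finset α} {e f : α} (he : e ∈ A) (hf : f ∉ A) :
    (insert f (A.erase e)).card = A.card := by
  rw [card_insert_of_notMem (fun h => hf (mem_of_mem_erase h)), card_erase_add_one he]

theorem bf_LB3 {𝓛 : Finset (Finset α)} (h : IsLin 𝓛) (hne : ∃ B, LB3 𝓛 B) : BF 3 (LB3 𝓛) := by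
  refine ⟨fun B hB => hB.1, hne, ?_⟩
  intro A B hA hB e he heB
  by_cases hc : ∃ l ∈ 𝓛, A.erase e ⊆ l
  · obtain ⟨l, hl, hAl⟩ := hc
    obtain ⟨f, hf, hfl⟩ := not_subset.1 (hB.2 l hl)
    have hfA : f ∉ A := by
      intro h1
      exact hfl (hAl (mem_erase.2 ⟨fun h2 => heB (h2 ▸ hf), h1⟩))
    refine ⟨f, hf, hfA, by rw [card_repl he hfA, hA.1], ?_⟩
    intro m hm hsub
    have h1 : l = m := h.eq hl hm (X := A.erase e)
      (by have := card_erase_add_one he; have := hA.1; omega) hAl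
      ((subset_insert _ _).trans hsub)
    exact hfl (h1 ▸ hsub (mem_insert_self _ _))
  · push Not at hc
    obtain ⟨f, hf, hfA⟩ := exists_diff (by rw [hA.1, hB.1]) he heB
    exact ⟨f, hf, hfA, by rw [card_repl he hfA, hA.1], fun m hm hsub =>
      hc m hm ((subset_insert _ _).trans hsub)⟩

theorem bf_NB3 {l : Finset α} (hne : ∃ B, NB3 l B) : BF 3 (NB3 l) := by
  refine ⟨fun B hB => hB.1, hne, ?_⟩
  intro A B hA hB e he heB
  by_cases hc : 2 ≤ ((A.erase e) ∩ l).card
  · obtain ⟨f, hf, hfA⟩ := exists_diff (by rw [hA.1, hB.1]) he heB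
    refine ⟨f, hf, hfA, by rw [card_repl he hfA, hA.1], hc.trans (card_le_card ?_)⟩
    exact inter_subset_inter_right (subset_insert _ _)
  · push Not at hc
    have h1 : ((A.erase e) ∩ l).card < (B ∩ l).card := by have := hB.2; omega
    obtain ⟨f, hf, hf2⟩ := exists_mem_notMem_of_card_lt_card h1
    rw [mem_inter] at hf hf2
    have hfA : f ∉ A := by
      intro h2
      exact hf2 ⟨mem_erase.2 ⟨fun h3 => heB (h3 ▸ hf.1), h2⟩, hf.2⟩
    refine ⟨f, hf.1, hfA, by rw [card_repl he hfA, hA.1], ?_⟩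
    have h3 : (insert f (A.erase e)) ∩ l = insert f ((A.erase e) ∩ l) := by
      rw [insert_inter_of_mem hf.2]
    rw [h3, card_insert_of_notMem (fun h => hf2 (mem_inter.1 h))]
    have h4 : A ∩ l ⊆ insert e ((A.erase e) ∩ l) := by
      intro t ht
      rw [mem_inter] at ht
      by_cases hte : t = e
      · rw [hte]; exact mem_insert_self _ _
      · exact mem_insert_of_mem (mem_inter.2 ⟨mem_erase.2 ⟨hte, ht.1⟩, ht.2⟩)
    have h5 := card_le_card h4
    have h6 := card_insert_le e ((A.erase e) ∩ l)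
    have := hA.2
    omega

theorem cover_LB3 {𝓛 : Finset (Finset α)} (h : IsLin 𝓛) {x : α → ℝ} (hx : x ∈ fpoly (TR (α := α)))
    (hle : ∀ l ∈ 𝓛, ∑ e ∈ l, x e ≤ 2) : x ∈ fpoly (LB3 𝓛) := by
  classical
  have h0 := reduce (N := TR) (fun B => if ∃ l ∈ 𝓛, B ⊆ l then 1 else 0) hx ?_
  · refine fpoly_mono ?_ h0
    rintro B ⟨hB, hφ⟩
    refine ⟨hB, fun l hl hBl => ?_⟩
    rw [if_pos ⟨l, hl, hBl⟩] at hφ
    exact one_ne_zero hφ
  · intro w hw B hB hφ
    obtain ⟨l, hl, hBl⟩ : ∃ l ∈ 𝓛, B ⊆ l := by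
      by_contra hcon
      exact hφ (if_neg hcon)
    have hBc : B.card = 3 := hw.supp B hB
    have hBi : (B ∩ l).card = 3 := by rw [inter_eq_left.2 hBl, hBc]
    obtain ⟨C, hC, hCl⟩ := hw.exists_lt l 2 (by exact_mod_cast hle l hl) hB (by omega)
    have hCc : C.card = 3 := hw.supp C hC
    obtain ⟨j, hj, hjl⟩ : ∃ j ∈ C, j ∉ l := by
      by_contra hcon
      push Not at hcon
      rw [inter_eq_left.2 (show C ⊆ l from hcon)] at hCl
      omega
    have hjB : j ∉ B := fun h1 => hjl (hBl h1)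
    obtain ⟨i, hi, hiC, him⟩ : ∃ i ∈ B, i ∉ C ∧ ∀ m ∈ 𝓛, ¬ insert i (C.erase j) ⊆ m := by
      by_contra hcon
      push Not at hcon
      have h1 : 1 < (B \ C).card := by
        have h2 := card_inter_add_card_sdiff B C
        have h3 : (B ∩ C).card ≤ (C ∩ l).card :=
          card_le_card fun t ht => mem_inter.2 ⟨(mem_inter.1 ht).2, hBl (mem_inter.1 ht).1⟩
        omega
      obtain ⟨i1, hi1, i2, hi2, h12⟩ := one_lt_card.1 h1
      rw [mem_sdiff] at hi1 hi2
      obtain ⟨m1, hm1, hs1⟩ := hcon i1 hi1.1 hi1.2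
      obtain ⟨m2, hm2, hs2⟩ := hcon i2 hi2.1 hi2.2
      have hX : 2 ≤ (C.erase j).card := by have := card_erase_add_one hj; omega
      have h3 := h.eq hm1 hm2 hX ((subset_insert _ _).trans hs1) ((subset_insert _ _).trans hs2)
      subst h3
      have h4 : m1 = l := h.eq hm1 hl (X := {i1, i2}) (by rw [card_pair h12])
        (by
          intro t ht
          rcases mem_insert.1 ht with h5 | h5
          · rw [h5]; exact hs1 (mem_insert_self _ _)
          · rw [mem_singleton.1 h5]; exact hs2 (mem_insert_self _ _))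
        (by
          intro t ht
          rcases mem_insert.1 ht with h5 | h5
          · rw [h5]; exact hBl hi1.1
          · rw [mem_singleton.1 h5]; exact hBl hi2.1)
      subst h4
      have h5 : C.erase j ⊆ C ∩ m1 := fun t ht =>
        mem_inter.2 ⟨mem_of_mem_erase ht, hs1 (mem_insert_of_mem ht)⟩
      have h6 := card_le_card h5
      omega
    refine ⟨B, C, insert j (B.erase i), insert i (C.erase j), ?_, hB, hC, ?_, ?_, ?_, ?_⟩
    · rintro rfl
      omega
    · show _ = 3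
      rw [card_repl hi hjB, hBc]
    · show _ = 3
      rw [card_repl hj hiC, hCc]
    · intro e
      exact ind_swap hi hiC hj hjB e
    · have h1 : ¬ ∃ m ∈ 𝓛, insert j (B.erase i) ⊆ m := by
        rintro ⟨m, hm, hs⟩
        have h2 : l = m := h.eq hl hm (X := B.erase i)
          (by have := card_erase_add_one hi; omega) ((erase_subset _ _).trans hBl)
          ((subset_insert _ _).trans hs)
        exact hjl (h2 ▸ hs (mem_insert_self _ _))
      have h2 : ¬ ∃ m ∈ 𝓛, insert i (C.erase j) ⊆ m := by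
        rintro ⟨m, hm, hs⟩
        exact him m hm hs
      simp only [if_neg h1, if_neg h2, if_pos (show ∃ l ∈ 𝓛, B ⊆ l from ⟨l, hl, hBl⟩)]
      omega

theorem cover_NB3 {l : Finset α} {x : α → ℝ} (hx : x ∈ fpoly (TR (α := α)))
    (hle : 2 ≤ ∑ e ∈ l, x e) : x ∈ fpoly (NB3 l) := by
  have h0 := reduce (N := TR) (fun B => 2 - (B ∩ l).card) hx ?_
  · refine fpoly_mono ?_ h0
    rintro B ⟨hB, hφ⟩
    exact ⟨hB, by omega⟩
  · intro w hw B hB hφ
    have hφ' : (B ∩ l).card < 2 := by omega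
    have hBc : B.card = 3 := hw.supp B hB
    obtain ⟨C, hC, hCl⟩ := hw.exists_gt l 2 (by exact_mod_cast hle) hB hφ'
    have hCc : C.card = 3 := hw.supp C hC
    have hCsub : C ⊆ l := by
      have h1 : C ∩ l = C := eq_of_subset_of_card_le inter_subset_left (by omega)
      rw [← h1]
      exact inter_subset_right
    obtain ⟨j, hj, hjl⟩ : ∃ j ∈ B, j ∉ l := by
      by_contra hcon
      push Not at hcon
      rw [inter_eq_left.2 (show B ⊆ l from hcon)] at hφ'
      omega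
    have hjC : j ∉ C := fun h1 => hjl (hCsub h1)
    obtain ⟨i, hi, hiB⟩ : ∃ i ∈ C, i ∉ B := by
      by_contra hcon
      push Not at hcon
      have h1 : C ⊆ B ∩ l := fun t ht => mem_inter.2 ⟨hcon t ht, hCsub ht⟩
      have := card_le_card h1
      omega
    refine ⟨B, C, insert i (B.erase j), insert j (C.erase i), ?_, hB, hC, ?_, ?_, ?_, ?_⟩
    · rintro rfl
      omega
    · show _ = 3
      rw [card_repl hj hiB, hBc]
    · show _ = 3
      rw [card_repl hi hjC, hCc]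
    · intro e
      exact ind_swap hj hjC hi hiB e
    · have h1 : insert i (B.erase j) ∩ l = insert i (B ∩ l) := by
        rw [insert_inter_of_mem (hCsub hi)]
        congr 1
        ext t
        simp only [mem_inter, mem_erase]
        constructor
        · rintro ⟨⟨_, h1⟩, h2⟩
          exact ⟨h1, h2⟩
        · rintro ⟨h1, h2⟩
          exact ⟨⟨fun h3 => hjl (h3 ▸ h2), h1⟩, h2⟩
      have h2 : (C.erase i) ⊆ insert j (C.erase i) ∩ l := fun t ht =>
        mem_inter.2 ⟨mem_insert_of_mem ht, hCsub (mem_of_mem_erase ht)⟩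
      have h3 := card_le_card h2
      have h4 := card_erase_add_one hi
      have h5 : (insert i (B.erase j) ∩ l).card = (B ∩ l).card + 1 := by
        rw [h1, card_insert_of_notMem (fun h => hiB (mem_inter.1 h).1)]
      simp only [h5]
      omega

theorem inter_add_le {𝓛 : Finset (Finset α)} (h : IsLin 𝓛) {l m : Finset α} (hl : l ∈ 𝓛)
    (hm : m ∈ 𝓛) (hlm : l ≠ m) {B : Finset α} (hB : B.card = 3) :
    (B ∩ l).card + (B ∩ m).card ≤ 4 := by
  have h1 := card_union_add_card_inter (B ∩ l) (B ∩ m)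
  have h2 : ((B ∩ l) ∪ (B ∩ m)).card ≤ B.card :=
    card_le_card (union_subset inter_subset_left inter_subset_left)
  have h3 : ((B ∩ l) ∩ (B ∩ m)).card ≤ (l ∩ m).card := by
    apply card_le_card
    intro t ht
    simp only [mem_inter] at ht ⊢
    exact ⟨ht.1.2, ht.2.2⟩
  have h4 := h l hl m hm hlm
  omega

end

section
open Pool.Agent.R567.MSub
variable {n : ℕ}

/-- the sum of the coordinates in `K` -/
noncomputable def sF (K : Finset (Fin n)) : (Fin n → ℝ) →ₗ[ℝ] ℝ := ∑ e ∈ K, LinearMap.proj e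

theorem sF_apply (K : Finset (Fin n)) (x : Fin n → ℝ) : sF K x = ∑ e ∈ K, x e := by
  simp [sF, LinearMap.sum_apply]

/-- the cells -/
def cellsOf (𝓛 : Finset (Finset (Fin n))) : Set (Finset (Fin n) → Prop) :=
  {N | N = LB3 𝓛 ∨ ∃ l ∈ 𝓛, N = NB3 l}

theorem mem_TR_of {N : Finset (Fin n) → Prop} (hN : ∀ B, N B → B.card = 3) {x : Fin n → ℝ}
    (hx : x ∈ fpoly N) : x ∈ fpoly (TR (α := Fin n)) := fpoly_mono hN hx

theorem face_inter_of {N N' : Finset (Fin n) → Prop} (m : Finset (Fin n))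
    (h1 : ∀ x ∈ fpoly N, ∑ e ∈ m, x e ≤ 2) (h2 : ∀ x ∈ fpoly N', 2 ≤ ∑ e ∈ m, x e)
    (h3 : ∀ x ∈ fpoly N, ∑ e ∈ m, x e = 2 → x ∈ fpoly N') :
    IsFace (fpoly N) (fpoly N ∩ fpoly N') := by
  have h4 := face_of_le (convex_fp N) (sF m) 2 (fun x hx => by rw [sF_apply]; exact h1 x hx)
  have h5 : fpoly N ∩ {x | sF m x = 2} = fpoly N ∩ fpoly N' := by
    ext x
    simp only [Set.mem_inter_iff, Set.mem_ofPred_eq, sF_apply]
    constructor
    · rintro ⟨a, b⟩
      exact ⟨a, h3 x a b⟩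
    · rintro ⟨a, b⟩
      exact ⟨a, le_antisymm (h1 x a) (h2 x b)⟩
  rwa [h5] at h4

theorem face_inter_of' {N N' : Finset (Fin n) → Prop} (m : Finset (Fin n))
    (h1 : ∀ x ∈ fpoly N, 2 ≤ ∑ e ∈ m, x e) (h2 : ∀ x ∈ fpoly N', ∑ e ∈ m, x e ≤ 2)
    (h3 : ∀ x ∈ fpoly N, ∑ e ∈ m, x e = 2 → x ∈ fpoly N') :
    IsFace (fpoly N) (fpoly N ∩ fpoly N') := by
  have h4 := face_of_le (convex_fp N) (-sF m) (-2) (fun x hx => by
    rw [LinearMap.neg_apply, sF_apply]
    have := h1 x hx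
    linarith)
  have h5 : fpoly N ∩ {x | (-sF m) x = -2} = fpoly N ∩ fpoly N' := by
    ext x
    simp only [Set.mem_inter_iff, Set.mem_ofPred_eq, LinearMap.neg_apply, sF_apply, neg_inj]
    constructor
    · rintro ⟨a, b⟩
      exact ⟨a, h3 x a b⟩
    · rintro ⟨a, b⟩
      exact ⟨a, le_antisymm (h2 x b) (h1 x a)⟩
  rwa [h5] at h4

theorem cellsOf_face {𝓛 : Finset (Finset (Fin n))} (h : IsLin 𝓛) :
    ∀ N ∈ cellsOf 𝓛, ∀ N' ∈ cellsOf 𝓛, IsFace (fpoly N) (fpoly N ∩ fpoly N') := by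
  have hL : ∀ l ∈ 𝓛, ∀ x ∈ fpoly (LB3 𝓛), ∑ e ∈ l, x e ≤ 2 := by
    intro l hl x hx
    have := sum_le hx l 2 (by
      intro B hB
      by_contra hcon
      push Not at hcon
      have h1 : B ∩ l = B := eq_of_subset_of_card_le inter_subset_left (by have := hB.1; omega)
      exact hB.2 l hl (by rw [← h1]; exact inter_subset_right))
    exact_mod_cast this
  have hN : ∀ l ∈ 𝓛, ∀ x ∈ fpoly (NB3 l), 2 ≤ ∑ e ∈ l, x e := by
    intro l hl x hx
    have := sum_ge hx l 2 (fun B hB => hB.2)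
    exact_mod_cast this
  have hNm : ∀ l ∈ 𝓛, ∀ m ∈ 𝓛, l ≠ m → ∀ x ∈ fpoly (NB3 l), ∑ e ∈ m, x e ≤ 2 := by
    intro l hl m hm hlm x hx
    have := sum_le hx m 2 (by
      intro B hB
      have h1 := inter_add_le h hl hm hlm hB.1
      have := hB.2
      omega)
    exact_mod_cast this
  rintro N (rfl | ⟨l, hl, rfl⟩) N' (rfl | ⟨m, hm, rfl⟩)
  · rw [Set.inter_self]; exact face_refl (convex_fp _)
  · exact face_inter_of m (hL m hm) (hN m hm)
      (fun x hx hs => cover_NB3 (mem_TR_of (fun B hB => hB.1) hx) hs.ge)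
  · refine face_inter_of' l (hN l hl) (hL l hl) (fun x hx hs => ?_)
    refine cover_LB3 h (mem_TR_of (fun B hB => hB.1) hx) (fun m hm => ?_)
    by_cases hlm : l = m
    · rw [← hlm]; exact hs.le
    · exact hNm l hl m hm hlm x hx
  · by_cases hlm : l = m
    · subst hlm
      rw [Set.inter_self]; exact face_refl (convex_fp _)
    · exact face_inter_of m (hNm l hl m hm hlm) (hN m hm)
        (fun x hx hs => cover_NB3 (mem_TR_of (fun B hB => hB.1) hx) hs.ge)

theorem cellsOf_cover {𝓛 : Finset (Finset (Fin n))} (h : IsLin 𝓛) {x : Fin n → ℝ}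
    (hx : x ∈ fpoly (TR (α := Fin n))) : ∃ N ∈ cellsOf 𝓛, x ∈ fpoly N := by
  by_cases hc : ∀ l ∈ 𝓛, ∑ e ∈ l, x e ≤ 2
  · exact ⟨_, Or.inl rfl, cover_LB3 h hx hc⟩
  · push Not at hc
    obtain ⟨l, hl, hlt⟩ := hc
    exact ⟨_, Or.inr ⟨l, hl, rfl⟩, cover_NB3 hx hlt.le⟩

end

end Pool.Agent.FMS75
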