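import Pool.Agent.FMS75.Wall

set_option autoImplicit false

/-!
A finest matroid subdivision of the hypersimplex `Δ(3, 9)` with a decomposable cell.
-/

namespace Pool.Agent.FMS75

open Finset Pool.Agent.R138.Pg
open Pool.Agent.R567.MSub (polytope IsCell IsMatroidSubdivision exists_cell_near
  exists_cell_of_mem convex_polytope IsFace)

theorem bf_TR : BF 3 (TR (α := Fin 9)) := by
  refine ⟨fun B hB => hB, ⟨{0, 1, 2}, rfl⟩, ?_⟩
  intro A B hA hB e he heB
  obtain ⟨f, hf, hfA⟩ := exists_diff (by rw [show A.card = 3 from hA, show B.card = 3 from hB])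
    he heB
  exact ⟨f, hf, hfA, by
    show _ = 3
    rw [card_repl he hfA]
    exact hA⟩

theorem card_LL : ∀ l ∈ LL, 2 ≤ l.card ∧ l.card ≤ 4 := by decide +kernel

/-- the uniform matroid -/
def U39 : Matroid (Fin 9) := toMat TR bf_TR

theorem bp_U : bp U39 = TR := bp_toMat

theorem base_subdivision : IsMatroidSubdivision U39 (faces (cellsOf LL)) := by
  refine faces_subdivision (r := 3) ?_ (cellsOf_face isLin_LL) ?_ ?_
  · rintro N (rfl | ⟨l, hl, rfl⟩)
    · exact bf_LL
    · apply bf_NB3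
      have hl' := card_LL l hl
      obtain ⟨X, hX, hXc⟩ := exists_subset_card_eq hl'.1
      obtain ⟨y, hy⟩ : ∃ y : Fin 9, y ∉ X := by
        by_contra hcon
        push Not at hcon
        have h1 : X = univ := eq_univ_iff_forall.2 hcon
        rw [h1] at hXc
        simp at hXc
      refine ⟨insert y X, ?_, ?_⟩
      · rw [card_insert_of_notMem hy, hXc]
      · rw [← hXc]
        exact card_le_card (subset_inter (subset_insert _ _) hX)
  · intro x hx
    rw [bp_U] at hx
    exact cellsOf_cover isLin_LL hx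
  · rintro N (rfl | ⟨l, hl, rfl⟩) B hB
    · rw [bp_U]; exact hB.1
    · rw [bp_U]; exact hB.1

theorem LB3_sum {l : Finset (Fin 9)} (hl : l ∈ LL) {x : Fin 9 → ℝ} (hx : x ∈ fpoly (LB3 LL)) :
    ∑ e ∈ l, x e ≤ 2 := by
  have h := sum_le hx l 2 (by
    intro B hB
    by_contra hcon
    push Not at hcon
    have h1 : B ∩ l = B := eq_of_subset_of_card_le inter_subset_left (by rw [hB.1]; omega)
    exact hB.2 l hl (by rw [← h1]; exact inter_subset_right))
  exact_mod_cast h

theorem NB3_sum {l : Finset (Fin 9)} {x : Fin 9 → ℝ} (hx : x ∈ fpoly (NB3 l)) :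
    2 ≤ ∑ e ∈ l, x e := by
  have h := sum_ge hx l 2 (fun B hB => hB.2)
  exact_mod_cast h

theorem NB3_sum' {l m : Finset (Fin 9)} (hl : l ∈ LL) (hm : m ∈ LL) (hlm : l ≠ m)
    {x : Fin 9 → ℝ} (hx : x ∈ fpoly (NB3 l)) : ∑ e ∈ m, x e ≤ 2 := by
  have h := sum_le hx m 2 (by
    intro B hB
    have h1 := inter_add_le isLin_LL hl hm hlm hB.1
    have := hB.2
    omega)
  exact_mod_cast h

section
variable {C : Set (Set (Fin 9 → ℝ))}

theorem cell_data (hC : IsMatroidSubdivision U39 C) (href : Refines C (faces (cellsOf LL)))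
    {Q : Set (Fin 9 → ℝ)} (hQ : IsCell C Q) :
    ∃ N : Matroid (Fin 9), N.E = Set.univ ∧ Q = polytope N ∧ BF 3 (bp N) ∧
      ∃ N0 ∈ cellsOf LL, Q ⊆ fpoly N0 := by
  obtain ⟨N, hNE, hQN⟩ := hC.cells Q hQ
  refine ⟨N, hNE, hQN, ?_, ?_⟩
  · apply bf_bp
    intro B hB
    have h1 : ind B ∈ Q := by
      rw [hQN, polytope_eq]
      exact ind_mem hB
    have h2 : ind B ∈ polytope U39 := by
      rw [← hC.union]
      exact ⟨Q, hQ.1, h1⟩
    rw [polytope_eq, bp_U] at h2
    exact ind_mem_iff.1 h2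
  · obtain ⟨R, ⟨N0, hN0, hR⟩, hQR⟩ := href Q hQ.1
    exact ⟨N0, hN0, hQR.trans (face_subset hR)⟩

/-- all cells -/
def SA (C : Set (Set (Fin 9 → ℝ))) : Set (Finset (Fin 9) → Prop) :=
  {P | ∃ N : Matroid (Fin 9), IsCell C (polytope N) ∧ P = bp N}

/-- the cells in the polytope of the lines -/
def SL (C : Set (Set (Fin 9 → ℝ))) : Set (Finset (Fin 9) → Prop) :=
  {P | (∃ N : Matroid (Fin 9), IsCell C (polytope N) ∧ P = bp N) ∧ ∀ B, P B → LB3 LL B}

theorem cell_bf (hC : IsMatroidSubdivision U39 C) {N : Matroid (Fin 9)}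
    (hN : IsCell C (polytope N)) : BF 3 (bp N) ∧ ∀ B, bp N B → TR B := by
  have key : ∀ B, bp N B → TR B := by
    intro B hB
    have h1 : ind B ∈ polytope N := by
      rw [polytope_eq]
      exact ind_mem hB
    have h2 : ind B ∈ polytope U39 := by
      rw [← hC.union]
      exact ⟨_, hN.1, h1⟩
    rw [polytope_eq, bp_U] at h2
    exact ind_mem_iff.1 h2
  exact ⟨bf_bp N key, key⟩

theorem cell_face (hC : IsMatroidSubdivision U39 C) {N N' : Matroid (Fin 9)}
    (hN : IsCell C (polytope N)) (hN' : IsCell C (polytope N')) :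
    ∀ x ∈ fpoly (bp N), ∀ y ∈ fpoly (bp N), ∀ z ∈ openSegment ℝ x y,
    z ∈ fpoly (bp N') → x ∈ fpoly (bp N') := by
  intro x hx y hy z hz hzN'
  rw [← polytope_eq] at *
  have h1 := (hC.isComplex.inter _ hN.1 _ hN'.1).1
  have hzN : z ∈ polytope N := (convex_polytope N).openSegment_subset hx hy hz
  exact (h1.2.left_mem_of_mem_openSegment hx hy ⟨hzN, hzN'⟩ hz).2

theorem sub_SA (hC : IsMatroidSubdivision U39 C) : Sub 3 TR (SA C) where
  bfM := bf_TR
  bf := by
    rintro _ ⟨N, hN, rfl⟩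
    exact (cell_bf hC hN).1
  sub := by
    rintro _ ⟨N, hN, rfl⟩
    exact (cell_bf hC hN).2
  cover := by
    intro x hx
    have h2 : x ∈ polytope U39 := by rw [polytope_eq, bp_U]; exact hx
    rw [← hC.union] at h2
    obtain ⟨Q, hQ, hxQ⟩ := h2
    obtain ⟨R, hR, hQR⟩ := exists_cell_of_mem hC.isComplex hQ
    obtain ⟨N, _, rfl⟩ := hC.cells R hR
    refine ⟨_, ⟨N, hR, rfl⟩, ?_⟩
    rw [← polytope_eq]
    exact hQR hxQ
  face := by
    rintro _ ⟨N, hN, rfl⟩ _ ⟨N', hN', rfl⟩
    exact cell_face hC hN hN'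

theorem sub_SL (hC : IsMatroidSubdivision U39 C) (href : Refines C (faces (cellsOf LL))) :
    Sub 3 (LB3 LL) (SL C) where
  bfM := bf_LL
  bf := by
    rintro _ ⟨⟨N, hN, rfl⟩, _⟩
    exact (cell_bf hC hN).1
  sub := fun N hN => hN.2
  cover := by
    intro x hx
    have h2 : x ∈ polytope U39 := by
      rw [polytope_eq, bp_U]
      exact mem_TR_of (fun B hB => hB.1) hx
    have hv : (fun _ : Fin 9 => (1 / 3 : ℝ)) ∈ polytope U39 := by
      rw [polytope_eq, bp_U]
      have h := comb4 (convex_fpoly (TR (α := Fin 9))) (x1 := ind {0, 1, 2})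
        (x2 := ind {3, 4, 5}) (x3 := ind {6, 7, 8}) (x4 := ind {0, 1, 2})
        (ind_mem rfl) (ind_mem rfl) (ind_mem rfl) (ind_mem rfl) (1 / 3) (1 / 3) (1 / 3) 0
        (by norm_num) (by norm_num) (by norm_num) (by norm_num) (by norm_num)
      convert h using 1
      funext e
      fin_cases e <;> simp [ind]
    obtain ⟨Q, hQ, hxQ, t, ht0, ht1, hyQ⟩ :=
      exists_cell_near hC.isComplex hC.union (convex_polytope U39) h2 hv
    obtain ⟨N, _, rfl, hbf, N0, hN0, hQN0⟩ := cell_data hC href hQ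
    have hlt : ∀ l ∈ LL, ∑ e ∈ l, (x + t • ((fun _ : Fin 9 => (1 / 3 : ℝ)) - x)) e < 2 := by
      intro l hl
      have h3 : ∑ e ∈ l, (x + t • ((fun _ : Fin 9 => (1 / 3 : ℝ)) - x)) e =
          (1 - t) * ∑ e ∈ l, x e + t * (l.card * (1 / 3)) := by
        simp only [Pi.add_apply, Pi.smul_apply, Pi.sub_apply, smul_eq_mul]
        rw [sum_add_distrib, ← mul_sum, sum_sub_distrib, sum_const, nsmul_eq_mul]
        ring
      rw [h3]
      have h4 := LB3_sum hl hx
      have h5 : (l.card : ℝ) ≤ 4 := by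
        exact_mod_cast (card_LL l hl).2
      nlinarith
    have hN0' : N0 = LB3 LL := by
      rcases hN0 with h | ⟨l, hl, rfl⟩
      · exact h
      · exfalso
        have h4 := NB3_sum (hQN0 hyQ)
        have h5 := hlt l hl
        linarith
    subst hN0'
    refine ⟨bp N, ⟨⟨N, hQ, rfl⟩, ?_⟩, ?_⟩
    · intro B hB
      have h5 : ind B ∈ polytope N := by rw [polytope_eq]; exact ind_mem hB
      exact ind_mem_iff.1 (hQN0 h5)
    · rw [← polytope_eq]; exact hxQ
  face := by
    rintro _ ⟨⟨N, hN, rfl⟩, _⟩ _ ⟨⟨N', hN', rfl⟩, _⟩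
    exact cell_face hC hN hN'

/-- the point on the wall -/
noncomputable def wp : Fin 9 → ℝ := ![1 / 2, 1 / 2, 1 / 2, 1 / 2, 0, 0, 0, 1 / 2, 1 / 2]

theorem wp_mem : wp ∈ polytope U39 := by
  rw [polytope_eq, bp_U]
  have h := comb4 (convex_fpoly (TR (α := Fin 9))) (x1 := ind {0, 1, 7})
    (x2 := ind {2, 3, 8}) (x3 := ind {0, 1, 2}) (x4 := ind {0, 1, 2})
    (ind_mem rfl) (ind_mem rfl) (ind_mem rfl) (ind_mem rfl) (1 / 2) (1 / 2) 0 0
    (by norm_num) (by norm_num) (by norm_num) (by norm_num) (by norm_num)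
  convert h using 1
  funext e
  fin_cases e <;> simp [ind, wp]

theorem exists_beyond (hC : IsMatroidSubdivision U39 C) (href : Refines C (faces (cellsOf LL))) :
    ∃ N : Matroid (Fin 9), N.E = Set.univ ∧ IsCell C (polytope N) ∧ Beyond N := by
  have hv : (ind {1, 2, 3} : Fin 9 → ℝ) ∈ polytope U39 := by
    rw [polytope_eq, bp_U]
    exact ind_mem rfl
  obtain ⟨Q, hQ, hwQ, t, ht0, ht1, hyQ⟩ :=
    exists_cell_near hC.isComplex hC.union (convex_polytope U39) wp_mem hv
  obtain ⟨N, hNE, rfl, hbf, N0, hN0, hQN0⟩ := cell_data hC href hQ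
  have hsum : 2 < ∑ e ∈ A4, (wp + t • ((ind {1, 2, 3} : Fin 9 → ℝ) - wp)) e := by
    have h3 : ∑ e ∈ A4, (wp + t • ((ind {1, 2, 3} : Fin 9 → ℝ) - wp)) e = 2 + t := by
      have i0 : ind ({1, 2, 3} : Finset (Fin 9)) 0 = 0 := by simp [ind]
      have i1 : ind ({1, 2, 3} : Finset (Fin 9)) 1 = 1 := by simp [ind]
      have i2 : ind ({1, 2, 3} : Finset (Fin 9)) 2 = 1 := by simp [ind]
      have i3 : ind ({1, 2, 3} : Finset (Fin 9)) 3 = 1 := by simp [ind]
      have w0 : wp 0 = 1 / 2 := by simp [wp]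
      have w1 : wp 1 = 1 / 2 := by simp [wp]
      have w2 : wp 2 = 1 / 2 := by simp [wp]
      have w3 : wp 3 = 1 / 2 := by simp [wp]
      rw [sum_insert (by decide), sum_insert (by decide), sum_pair (by decide)]
      simp only [Pi.add_apply, Pi.smul_apply, Pi.sub_apply, smul_eq_mul, i0, i1, i2, i3, w0, w1,
        w2, w3]
      ring
    rw [h3]
    linarith
  have hN0' : N0 = NB3 A4 := by
    rcases hN0 with rfl | ⟨l, hl, rfl⟩
    · exfalso
      have h4 := LB3_sum lA (hQN0 hyQ)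
      linarith
    · by_cases h : l = A4
      · rw [h]
      · exfalso
        have h4 := NB3_sum' hl lA h (hQN0 hyQ)
        linarith
  subst hN0'
  have hbase : ∀ B, bp N B → NB3 A4 B := by
    intro B hB
    have h5 : ind B ∈ polytope N := by rw [polytope_eq]; exact ind_mem hB
    exact ind_mem_iff.1 (hQN0 h5)
  have htwo : ∀ B, bp N B → 2 ≤ (B ∩ A4).card := fun B hB => (hbase B hB).2
  have hwN := hwQ
  rw [polytope_eq] at hwN
  obtain ⟨W, hW⟩ := mem_iff_rep.1 hwN
  -- a base with the element 7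
  obtain ⟨B7, hB7, hB7'⟩ := exists_gt hW.nn hW.one hW.eq {7} 0 (by simp [wp])
  have h7B : (7 : Fin 9) ∈ B7 := by
    rw [card_pos] at hB7'
    obtain ⟨t, ht⟩ := hB7'
    simp only [mem_inter, mem_singleton] at ht
    rw [← ht.2]; exact ht.1
  -- the members of the support
  have hcompl : ∀ B : Finset (Fin 9), (B ∩ A4).card + (B ∩ {4, 5, 6, 7, 8}).card = B.card := by
    intro B
    have h1 : B ∩ {4, 5, 6, 7, 8} = B \ A4 := by
      ext e
      simp only [mem_inter, mem_sdiff]
      have : e ∈ ({4, 5, 6, 7, 8} : Finset (Fin 9)) ↔ e ∉ A4 := by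
        revert e
        decide
      rw [this]
    rw [h1, add_comm]
    exact card_sdiff_add_card_inter B A4
  have hone : ∀ B, W B ≠ 0 → (B ∩ {4, 5, 6, 7, 8}).card = 1 := by
    apply card_eq_of_max hW.nn hW.one hW.eq
    · intro B hB
      have h1 := hcompl B
      have h2 := htwo B (hW.supp B hB)
      have h3 := hbf.card B (hW.supp B hB)
      omega
    · rw [sum_insert (by decide), sum_insert (by decide), sum_insert (by decide),
        sum_pair (by decide)]
      simp [wp]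
      norm_num
  have hsupp : ∀ B, W B ≠ 0 → ∃ u v, u ≠ v ∧ B ∩ A4 = {u, v} ∧ D (bp N) {7} u v := by
    intro B hB
    have hBN := hW.supp B hB
    have h1 := hone B hB
    have h2 := hcompl B
    have h3 := hbf.card B hBN
    obtain ⟨y, hy⟩ := card_eq_one.1 h1
    have h4 : (B ∩ A4).card = 2 := by omega
    obtain ⟨u, v, huv, huvB⟩ := card_eq_two.1 h4
    have hyB : y ∈ B ∩ {4, 5, 6, 7, 8} := by rw [hy]; exact mem_singleton_self y
    rw [mem_inter] at hyB
    have hyA : y ∉ A4 := by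
      have : ∀ y ∈ ({4, 5, 6, 7, 8} : Finset (Fin 9)), y ∉ A4 := by decide
      exact this y hyB.2
    refine ⟨u, v, huv, huvB, ?_⟩
    apply aug hbf htwo (z := 7) (y := y) (by decide) hyA (hW.supp B7 hB7) h7B
    show bp N (insert u (insert v {y}))
    have hu : u ∈ B ∩ A4 := by rw [huvB]; simp
    have hv : v ∈ B ∩ A4 := by rw [huvB]; simp
    rw [mem_inter] at hu hv
    have huy : u ≠ y := fun e => hyA (e ▸ hu.2)
    have hvy : v ≠ y := fun e => hyA (e ▸ hv.2)
    have h5 : insert u (insert v {y}) = B := by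
      apply eq_of_subset_of_card_le
      · intro s hs
        simp only [mem_insert, mem_singleton] at hs
        rcases hs with rfl | rfl | rfl
        · exact hu.1
        · exact hv.1
        · exact hyB.1
      · rw [h3, card_insert_of_notMem (by simp [huv, huy]), card_pair hvy]
    rw [h5]
    exact hBN
  have hnl : ∀ a ∈ A4, NL (bp N) {7} a := by
    intro a ha
    have hwa : wp a = 1 / 2 := by
      simp only [mem_insert, mem_singleton] at ha
      rcases ha with rfl | rfl | rfl | rfl <;> simp [wp]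
    obtain ⟨B, hB, hB'⟩ := exists_gt hW.nn hW.one hW.eq {a} 0 (by simp [hwa])
    have haB : a ∈ B := by
      rw [card_pos] at hB'
      obtain ⟨t, ht⟩ := hB'
      simp only [mem_inter, mem_singleton] at ht
      rw [← ht.2]; exact ht.1
    obtain ⟨u, v, huv, huvB, hD⟩ := hsupp B hB
    have ha2 : a ∈ B ∩ A4 := mem_inter.2 ⟨haB, ha⟩
    rw [huvB] at ha2
    simp only [mem_insert, mem_singleton] at ha2
    rcases ha2 with rfl | rfl
    · exact hD.nl
    · exact hD.nl'
  have hpair : ∀ x ∈ A4, ∀ y ∈ A4, ∀ z ∈ A4, x ≠ y → x ≠ z → y ≠ z →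
      ∃ p ∈ ({x, y, z} : Finset (Fin 9)), ∃ q ∈ ({x, y, z} : Finset (Fin 9)),
        D (bp N) {7} p q := by
    intro x hx y hy z hz hxy hxz hyz
    have hwa : ∀ a ∈ A4, wp a = 1 / 2 := by
      intro a ha
      simp only [mem_insert, mem_singleton] at ha
      rcases ha with rfl | rfl | rfl | rfl <;> simp [wp]
    obtain ⟨B, hB, hB'⟩ := exists_gt hW.nn hW.one hW.eq {x, y, z} 1 (by
      rw [sum_insert (by simp [hxy, hxz]), sum_pair hyz, hwa x hx, hwa y hy, hwa z hz]
      norm_num)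
    obtain ⟨u, v, huv, huvB, hD⟩ := hsupp B hB
    have hsub : B ∩ {x, y, z} ⊆ {u, v} := by
      rw [← huvB]
      apply inter_subset_inter_left
      intro s hs
      simp only [mem_insert, mem_singleton] at hs
      rcases hs with rfl | rfl | rfl <;> assumption
    have heq : B ∩ {x, y, z} = {u, v} :=
      eq_of_subset_of_card_le hsub (card_le_two.trans hB')
    have hu : u ∈ B ∩ {x, y, z} := by rw [heq]; simp
    have hv : v ∈ B ∩ {x, y, z} := by rw [heq]; simp
    exact ⟨u, (mem_inter.1 hu).2, v, (mem_inter.1 hv).2, hD⟩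
  refine ⟨N, hNE, hQ, hbf, htwo, ?_, ?_⟩
  · intro a ha b hb hab
    obtain ⟨g, hg, d, hd, hag, had, hbg, hbd, hgd, hA⟩ := fin_pair a ha b hb hab
    by_contra hn
    have h1 : D (bp N) {7} a g := by
      rcases tri hbf (I := {7}) rfl (u := b) (v := a) (w := g) (hnl a ha)
        (hpair b hb a ha g hg hab.symm hbg hag) with h | h
      · exact absurd h.symm hn
      · exact h
    have h2 : D (bp N) {7} b d := by
      rcases tri hbf (I := {7}) rfl (u := a) (v := b) (w := d) (hnl b hb)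
        (hpair a ha b hb d hd hab had hbd) with h | h
      · exact absurd h hn
      · exact h
    have h3 := noT (sub_SL hC href) ha hb hg hd hab hag had hbg hbd hgd
    unfold T at h3
    push Not at h3
    obtain ⟨N', hN', h4, h5⟩ := h3
    exact hn ((sub_SA hC).face_pair (I := {7}) rfl (N := bp N) (N' := N') ⟨N, hQ, rfl⟩ hN'.1
      h1 h2 h4 h5)
  · rw [polytope_eq] at hyQ
    obtain ⟨W', hW'⟩ := mem_iff_rep.1 hyQ
    obtain ⟨B, hB, hB'⟩ := exists_gt hW'.nn hW'.one hW'.eq A4 2 (by exact_mod_cast hsum)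
    have hBN := hW'.supp B hB
    refine ⟨B, hBN, ?_⟩
    have h3 := hbf.card B hBN
    have h1 : B ∩ A4 = B := eq_of_subset_of_card_le inter_subset_left (by omega)
    rw [← h1]
    exact inter_subset_right

/-- the main theorem -/
theorem main : ∃ C, IsFinest U39 C ∧ ∃ N : Matroid (Fin 9), N.E = Set.univ ∧
    IsCell C (polytope N) ∧ ∃ C', IsMatroidSubdivision N C' ∧ polytope N ∉ C' := by
  obtain ⟨C, hC, href⟩ := exists_finest base_subdivision
  obtain ⟨N, hNE, hcell, hbey⟩ := exists_beyond hC.1 href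
  exact ⟨C, hC, N, hNE, hcell, hbey.decomposable⟩

end

end Pool.Agent.FMS75
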