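import Pool.Agent.FMS75.Split

set_option autoImplicit false

/-!
The monodromy around the line `{0, 1, 2, 3}` in a rank three matroid on nine elements.
-/

namespace Pool.Agent.FMS75

open Finset Pool.Agent.R138.Pg

/-- the lines -/
def LL : Finset (Finset (Fin 9)) :=
  {{0, 1, 2, 3}, {0, 4, 5, 6}, {1, 4, 7}, {2, 5, 7}, {3, 6, 7}, {3, 4, 8}, {1, 5, 8}, {2, 6, 8}}

theorem isLin_LL : IsLin LL := by unfold IsLin; decide +kernel

instance (B : Finset (Fin 9)) : Decidable (LB3 LL B) :=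
  inferInstanceAs (Decidable (_ ∧ _))

instance (I : Finset (Fin 9)) (u v : Fin 9) : Decidable (D (LB3 LL) I u v) :=
  inferInstanceAs (Decidable (LB3 LL _))

instance (I : Finset (Fin 9)) (u : Fin 9) : Decidable (NL (LB3 LL) I u) :=
  inferInstanceAs (Decidable (∃ _, _))

theorem bf_LL : BF 3 (LB3 LL) := bf_LB3 isLin_LL ⟨{0, 1, 4}, by decide +kernel⟩

/-- parallel elements in the contraction of `p` -/
def Par (p x y : Fin 9) : Prop := ¬ D (LB3 LL) {p} x y ∧ NL (LB3 LL) {p} y

instance (p x y : Fin 9) : Decidable (Par p x y) := inferInstanceAs (Decidable (_ ∧ _))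

theorem par7 : Par 7 0 0 ∧ Par 7 1 4 ∧ Par 7 2 5 ∧ Par 7 3 6 := by decide +kernel

theorem par8 : Par 8 0 0 ∧ Par 8 4 3 ∧ Par 8 5 1 ∧ Par 8 6 2 := by decide +kernel

/-- all six pairs -/
def Fl (p a b c d : Fin 9) : Prop :=
  D (LB3 LL) {p} a b ∧ D (LB3 LL) {p} a c ∧ D (LB3 LL) {p} a d ∧ D (LB3 LL) {p} b c ∧
  D (LB3 LL) {p} b d ∧ D (LB3 LL) {p} c d

instance (p a b c d : Fin 9) : Decidable (Fl p a b c d) := inferInstanceAs (Decidable (_ ∧ _))

theorem Fl.full {p a b c d : Fin 9} (h : Fl p a b c d) : Full (LB3 LL) {p} a b c d :=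
  ⟨h.1, h.2.1, h.2.2.1, h.2.2.2.1, h.2.2.2.2.1, h.2.2.2.2.2⟩

theorem fl7 : Fl 7 0 1 2 3 ∧ Fl 7 0 2 1 3 ∧ Fl 7 0 3 1 2 ∧ Fl 7 0 2 3 1 ∧ Fl 7 0 1 3 2 := by
  decide +kernel

theorem fl8 : Fl 8 0 4 5 6 ∧ Fl 8 0 5 4 6 ∧ Fl 8 0 6 4 5 := by decide +kernel

theorem col_of {l : Finset (Fin 9)} (hl : l ∈ LL) {a b c d : Fin 9} (h : {a, b, c, d} ⊆ l) :
    ∀ x ∈ ({a, b, c, d} : Finset (Fin 9)), ∀ y ∈ ({a, b, c, d} : Finset (Fin 9)),
      ∀ z ∈ ({a, b, c, d} : Finset (Fin 9)), ¬ LB3 LL (insert x (insert y (insert z ∅))) := by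
  intro x hx y hy z hz hB
  refine hB.2 l hl ?_
  intro t ht
  simp only [mem_insert, notMem_empty, or_false] at ht
  rcases ht with rfl | rfl | rfl
  · exact h hx
  · exact h hy
  · exact h hz

theorem lA : ({0, 1, 2, 3} : Finset (Fin 9)) ∈ LL := by simp [LL]
theorem lB : ({0, 4, 5, 6} : Finset (Fin 9)) ∈ LL := by simp [LL]

section
variable {S : Set (Finset (Fin 9) → Prop)}

theorem center (hS : Sub 3 (LB3 LL) S) {p p' a b c d : Fin 9} (hp : p ≠ p')
    (h : FT (LB3 LL) S {p} a b c d) (hF : Fl p' a b c d) {l : Finset (Fin 9)} (hl : l ∈ LL)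
    (hs : {a, b, c, d} ⊆ l) : FT (LB3 LL) S {p'} a b c d := by
  have e : ∀ q : Fin 9, insert q (∅ : Finset (Fin 9)) = {q} := fun q => rfl
  have h1 := hS.P2 (J := ∅) (p := p) (p' := p') (a := a) (b := b) (c := c) (d := d) rfl hp
    (by rw [e]; exact h) (by rw [e]; exact hF.full) (col_of hl hs)
  rw [e] at h1
  exact h1

theorem para (hS : Sub 3 (LB3 LL) S) {p a b c d a' b' c' d' : Fin 9}
    (h : FT (LB3 LL) S {p} a b c d) (ha : Par p a a') (hb : Par p b b') (hc : Par p c c')
    (hd : Par p d d') : FT (LB3 LL) S {p} a' b' c' d' :=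
  hS.P1F4 rfl h ha.1 ha.2 hb.1 hb.2 hc.1 hc.2 hd.1 hd.2

theorem m1 (hS : Sub 3 (LB3 LL) S) (h : FT (LB3 LL) S {7} 0 1 2 3) :
    FT (LB3 LL) S {7} 0 3 1 2 := by
  obtain ⟨p0, p1, p2, p3⟩ := par7
  obtain ⟨q0, q1, q2, q3⟩ := par8
  exact center hS (by decide) (para hS (center hS (by decide) (para hS h p0 p1 p2 p3) fl8.1 lB
    (by decide)) q0 q1 q2 q3) fl7.2.2.1 lA (by decide)

theorem m2 (hS : Sub 3 (LB3 LL) S) (h : FT (LB3 LL) S {7} 0 2 1 3) :
    FT (LB3 LL) S {7} 0 1 3 2 := by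
  obtain ⟨p0, p1, p2, p3⟩ := par7
  obtain ⟨q0, q1, q2, q3⟩ := par8
  exact center hS (by decide) (para hS (center hS (by decide) (para hS h p0 p2 p1 p3) fl8.2.1 lB
    (by decide)) q0 q2 q1 q3) fl7.2.2.2.2 lA (by decide)

theorem m3 (hS : Sub 3 (LB3 LL) S) (h : FT (LB3 LL) S {7} 0 3 1 2) :
    FT (LB3 LL) S {7} 0 2 3 1 := by
  obtain ⟨p0, p1, p2, p3⟩ := par7
  obtain ⟨q0, q1, q2, q3⟩ := par8
  exact center hS (by decide) (para hS (center hS (by decide) (para hS h p0 p3 p1 p2) fl8.2.2 lB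
    (by decide)) q0 q3 q1 q2) fl7.2.2.2.1 lA (by decide)

end

section
variable {α : Type*} [Fintype α] [DecidableEq α] {r : ℕ} {N M : Finset α → Prop} {I : Finset α}
  {S : Set (Finset α → Prop)}

theorem tri (hN : BF r N) (hI : I.card + 2 = r) {u v w : α} (hv : NL N I v)
    (h : ∃ p ∈ ({u, v, w} : Finset α), ∃ q ∈ ({u, v, w} : Finset α), D N I p q) :
    D N I u v ∨ D N I v w := by
  obtain ⟨p, hp, q, hq, hD⟩ := h
  have huw : D N I u w → D N I u v ∨ D N I v w := by
    intro h1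
    rcases hv.exch hN hI h1 with h2 | h2
    · exact Or.inl h2.symm
    · exact Or.inr h2
  have hs : ∀ t, ¬ D N I t t := fun t => not_D_self hN hI t
  simp only [mem_insert, mem_singleton] at hp hq
  rcases hp with rfl | rfl | rfl <;> rcases hq with rfl | rfl | rfl
  · exact absurd hD (hs _)
  · exact Or.inl hD
  · exact huw hD
  · exact Or.inl hD.symm
  · exact absurd hD (hs _)
  · exact Or.inr hD
  · exact huw hD.symm
  · exact Or.inr hD.symm
  · exact absurd hD (hs _)

theorem not_two (hS : Sub r M S) (hI : I.card + 2 = r) {a b c d : α} (hF : Full M I a b c d)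
    (h1 : T S I a b c d) (h2 : T S I a d b c) : False := by
  obtain ⟨nab, na, nb⟩ := hF.ab.spec hS.bfM hI
  obtain ⟨ncd, nc, nd⟩ := hF.cd.spec hS.bfM hI
  have nac := (hF.ac.spec hS.bfM hI).1
  have nad := (hF.ad.spec hS.bfM hI).1
  have nbc := (hF.bc.spec hS.bfM hI).1
  have nbd := (hF.bd.spec hS.bfM hI).1
  have hx : (fun e => (1 / 2 : ℝ) * ind (insert a (insert b I)) e +
      1 / 2 * ind (insert c (insert d I)) e) ∈ fpoly M := by
    have hc : Convex ℝ (fpoly M) := convex_convexHull ℝ _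
    have := hc (ind_mem hF.ab) (ind_mem hF.cd) (a := 1 / 2) (b := 1 / 2) (by norm_num)
      (by norm_num) (by norm_num)
    exact this
  set x : α → ℝ := (fun e => (1 / 2 : ℝ) * ind (insert a (insert b I)) e +
      1 / 2 * ind (insert c (insert d I)) e) with hxdef
  have hxe : ∀ e, x e = 1 / 2 * ((if e = a then 1 else 0) + (if e = b then 1 else 0) +
      (if e ∈ I then 1 else 0)) + 1 / 2 * ((if e = c then 1 else 0) + (if e = d then 1 else 0) +
      (if e ∈ I then 1 else 0)) := by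
    intro e
    rw [← ind_insert_insert nab na nb, ← ind_insert_insert ncd nc nd]
  clear_value x
  obtain ⟨N, hN, hxN⟩ := hS.cover x hx
  have hNB := hS.bf N hN
  have hI1 : ∀ e ∈ I, x e = 1 := by
    intro e he
    have e1 : e ≠ a := fun h => na (h ▸ he)
    have e2 : e ≠ b := fun h => nb (h ▸ he)
    have e3 : e ≠ c := fun h => nc (h ▸ he)
    have e4 : e ≠ d := fun h => nd (h ▸ he)
    rw [hxe]; simp [e1, e2, e3, e4, he]; norm_num
  have xa : x a = 1 / 2 := by rw [hxe]; simp [nab, nac, nad, na]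
  have xb : x b = 1 / 2 := by rw [hxe]; simp [nab.symm, nbc, nbd, nb]
  have xc : x c = 1 / 2 := by rw [hxe]; simp [nac.symm, nbc.symm, ncd, nc]
  have xd : x d = 1 / 2 := by rw [hxe]; simp [nad.symm, nbd.symm, ncd.symm, nd]
  have nl : ∀ t, t ∉ I → x t = 1 / 2 → NL N I t := fun t h1 h2 =>
    nl_of_pos hNB hI hxN hI1 h1 (by rw [h2]; norm_num)
  have pr : ∀ u v w, u ∉ I → v ∉ I → w ∉ I → u ≠ v → u ≠ w → v ≠ w → x u = 1 / 2 →
      x v = 1 / 2 → x w = 1 / 2 →
      ∃ p ∈ ({u, v, w} : Finset α), ∃ q ∈ ({u, v, w} : Finset α), D N I p q := by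
    intro u v w hu hv hw huv huw hvw xu xv xw
    apply pair_of_sum hNB hI hxN hI1
    · intro e he
      simp only [mem_insert, mem_singleton] at he
      rcases he with rfl | rfl | rfl <;> assumption
    · rw [sum_insert (by simp [huv, huw]), sum_pair hvw, xu, xv, xw]
      norm_num
  by_cases c1 : D N I a b
  · have c2 := h1 N hN c1
    by_cases c3 : D N I a d
    · have c4 := h2 N hN c3
      rcases tri hNB hI (u := b) (v := c) (w := d) (nl c nc xc)
        (pr b c d nb nc nd nbc nbd ncd xb xc xd) with h | h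
      · exact c4 h
      · exact c2 h
    · rcases tri hNB hI (u := a) (v := d) (w := c) (nl d nd xd)
        (pr a d c na nd nc nad nac ncd.symm xa xd xc) with h | h
      · exact c3 h
      · exact c2 h.symm
  · by_cases c3 : D N I a d
    · have c4 := h2 N hN c3
      rcases tri hNB hI (u := a) (v := b) (w := c) (nl b nb xb)
        (pr a b c na nb nc nab nac nbc xa xb xc) with h | h
      · exact c1 h
      · exact c4 h
    · rcases tri hNB hI (u := b) (v := a) (w := d) (nl a na xa)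
        (pr b a d nb na nd nab.symm nbd nad xb xa xd) with h | h
      · exact c1 h.symm
      · exact c3 h

end

section
variable {S : Set (Finset (Fin 9) → Prop)}

theorem full0 : Full (LB3 LL) {7} 0 1 2 3 := fl7.1.full

theorem full1 : Full (LB3 LL) {7} 0 2 1 3 := fl7.2.1.full

theorem full2 : Full (LB3 LL) {7} 0 3 1 2 := fl7.2.2.1.full

theorem full3 : Full (LB3 LL) {7} 0 2 3 1 := fl7.2.2.2.1.full

theorem n1 (hS : Sub 3 (LB3 LL) S) : ¬ T S {7} 0 1 2 3 := by
  intro h
  have h2 := (m1 hS ⟨full0, h⟩).t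
  exact not_two hS (by decide) full0 h h2

theorem n2 (hS : Sub 3 (LB3 LL) S) : ¬ T S {7} 0 2 1 3 := by
  intro h
  have h2 := (m2 hS ⟨full1, h⟩).t
  exact not_two hS (by decide) full3 h.symm2 h2.symm2

theorem n3 (hS : Sub 3 (LB3 LL) S) : ¬ T S {7} 0 3 1 2 := by
  intro h
  have h2 := (m3 hS ⟨full2, h⟩).t
  exact not_two hS (by decide) full2 h h2

theorem noT (hS : Sub 3 (LB3 LL) S) {a b c d : Fin 9} (ha : a ∈ ({0, 1, 2, 3} : Finset (Fin 9)))
    (hb : b ∈ ({0, 1, 2, 3} : Finset (Fin 9))) (hc : c ∈ ({0, 1, 2, 3} : Finset (Fin 9)))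
    (hd : d ∈ ({0, 1, 2, 3} : Finset (Fin 9))) (hab : a ≠ b) (hac : a ≠ c) (had : a ≠ d)
    (hbc : b ≠ c) (hbd : b ≠ d) (hcd : c ≠ d) : ¬ T S {7} a b c d := by
  intro h
  have a1 := n1 hS
  have a2 := n2 hS
  have a3 := n3 hS
  simp only [mem_insert, mem_singleton] at ha hb hc hd
  rcases ha with rfl | rfl | rfl | rfl <;> rcases hb with rfl | rfl | rfl | rfl <;>
    first
    | exact hab rfl
    | (rcases hc with rfl | rfl | rfl | rfl <;>
        first
        | exact hac rfl
        | exact hbc rfl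
        | (rcases hd with rfl | rfl | rfl | rfl <;>
            first
            | exact had rfl
            | exact hbd rfl
            | exact hcd rfl
            | exact a1 h
            | exact a1 h.symm1
            | exact a1 h.symm2
            | exact a1 h.symm1.symm2
            | exact a1 h.symm3
            | exact a1 h.symm3.symm1
            | exact a1 h.symm3.symm2
            | exact a1 h.symm3.symm1.symm2
            | exact a2 h
            | exact a2 h.symm1
            | exact a2 h.symm2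
            | exact a2 h.symm1.symm2
            | exact a2 h.symm3
            | exact a2 h.symm3.symm1
            | exact a2 h.symm3.symm2
            | exact a2 h.symm3.symm1.symm2
            | exact a3 h
            | exact a3 h.symm1
            | exact a3 h.symm2
            | exact a3 h.symm1.symm2
            | exact a3 h.symm3
            | exact a3 h.symm3.symm1
            | exact a3 h.symm3.symm2
            | exact a3 h.symm3.symm1.symm2))

end

end Pool.Agent.FMS75
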