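import Pool.Agent.FMS75.Complex

set_option autoImplicit false

/-!
Moving the weights of a convex combination of 0/1-vectors by exchanges.
-/

namespace Pool.Agent.FMS75

open Finset Pool.Agent.R138.Pg

variable {α : Type*} [Fintype α] [DecidableEq α]

/-- `w` represents `x` as a convex combination of the vectors of the members of `N` -/
structure Rep (N : Finset α → Prop) (x : α → ℝ) (w : Finset α → ℝ) : Prop where
  nn : ∀ B, 0 ≤ w B
  supp : ∀ B, w B ≠ 0 → N B
  one : ∑ B, w B = 1
  eq : ∀ e, ∑ B, w B * ind B e = x e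

theorem mem_iff_rep {N : Finset α → Prop} {x : α → ℝ} : x ∈ fpoly N ↔ ∃ w, Rep N x w := by
  rw [mem_fpoly]
  constructor
  · rintro ⟨w, a, b, c, d⟩
    exact ⟨w, a, b, c, d⟩
  · rintro ⟨w, a, b, c, d⟩
    exact ⟨w, a, b, c, d⟩

theorem rep_compact (N : Finset α → Prop) (x : α → ℝ) : IsCompact {w | Rep N x w} := by
  have h1 : {w | Rep N x w} = stdSimplex ℝ (Finset α) ∩
      ({w | ∀ B, ¬ N B → w B = 0} ∩ {w | ∀ e, ∑ B, w B * ind B e = x e}) := by
    ext w
    constructor
    · rintro ⟨a, b, c, d⟩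
      exact ⟨⟨a, c⟩, fun B hB => by
        by_contra h
        exact hB (b B h), d⟩
    · rintro ⟨⟨a, c⟩, b, d⟩
      exact ⟨a, fun B hB => by
        by_contra h
        exact hB (b B h), c, d⟩
  rw [h1]
  apply (isCompact_stdSimplex ℝ (Finset α)).inter_right
  apply IsClosed.inter
  · have : {w : Finset α → ℝ | ∀ B, ¬ N B → w B = 0} =
        ⋂ B : Finset α, ⋂ _ : ¬ N B, {w : Finset α → ℝ | w B = 0} := by
      ext w; simp
    rw [this]
    exact isClosed_iInter fun B => isClosed_iInter fun _ =>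
      isClosed_eq (continuous_apply B) continuous_const
  · have : {w : Finset α → ℝ | ∀ e, ∑ B, w B * ind B e = x e} =
        ⋂ e : α, {w : Finset α → ℝ | ∑ B, w B * ind B e = x e} := by
      ext w; simp
    rw [this]
    refine isClosed_iInter fun e => isClosed_eq ?_ continuous_const
    exact continuous_finset_sum _ fun B _ => (continuous_apply B).mul continuous_const

/-- exchanges which lower a potential remove the members of positive potential -/
theorem reduce {N : Finset α → Prop} (φ : Finset α → ℕ) {x : α → ℝ} (hx : x ∈ fpoly N)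
    (step : ∀ w, Rep N x w → ∀ B, w B ≠ 0 → φ B ≠ 0 →
      ∃ B₁ B₂ C₁ C₂, B₁ ≠ B₂ ∧ w B₁ ≠ 0 ∧ w B₂ ≠ 0 ∧ N C₁ ∧ N C₂ ∧
        (∀ e, ind B₁ e + ind B₂ e = ind C₁ e + ind C₂ e) ∧ φ C₁ + φ C₂ < φ B₁ + φ B₂) :
    x ∈ fpoly (fun B => N B ∧ φ B = 0) := by
  obtain ⟨w₀, hw₀⟩ := mem_iff_rep.1 hx
  have hcont : ContinuousOn (fun w : Finset α → ℝ => ∑ B, w B * (φ B : ℝ)) {w | Rep N x w} :=
    (continuous_finset_sum _ fun B _ => (continuous_apply B).mul continuous_const).continuousOn
  obtain ⟨w, hw, hmin⟩ := (rep_compact N x).exists_isMinOn ⟨w₀, hw₀⟩ hcont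
  rw [mem_iff_rep]
  refine ⟨w, hw.nn, ?_, hw.one, hw.eq⟩
  intro B hB
  refine ⟨hw.supp B hB, ?_⟩
  by_contra hφ
  obtain ⟨B₁, B₂, C₁, C₂, hne, h1, h2, hC₁, hC₂, hind, hlt⟩ := step w hw B hB hφ
  have p1 : 0 < w B₁ := lt_of_le_of_ne (hw.nn _) (Ne.symm h1)
  have p2 : 0 < w B₂ := lt_of_le_of_ne (hw.nn _) (Ne.symm h2)
  set ε : ℝ := min (w B₁) (w B₂) with hε
  have hε0 : 0 < ε := lt_min p1 p2
  have hε1 : ε ≤ w B₁ := min_le_left _ _
  have hε2 : ε ≤ w B₂ := min_le_right _ _
  set w' : Finset α → ℝ := fun C => w C + ε * (if C = C₁ then 1 else 0) +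
    ε * (if C = C₂ then 1 else 0) - ε * (if C = B₁ then 1 else 0) -
    ε * (if C = B₂ then 1 else 0) with hw'
  have hrep : Rep N x w' := by
    refine ⟨?_, ?_, ?_, ?_⟩
    · intro C
      have e1 : (0 : ℝ) ≤ ε * (if C = C₁ then 1 else 0) := by split_ifs <;> simp [hε0.le]
      have e2 : (0 : ℝ) ≤ ε * (if C = C₂ then 1 else 0) := by split_ifs <;> simp [hε0.le]
      have e3 := hw.nn C
      by_cases c1 : C = B₁
      · have c2 : C ≠ B₂ := fun h => hne (c1.symm.trans h)
        simp only [hw', c1, if_true] at *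
        simp only [if_neg c2]
        linarith
      · by_cases c2 : C = B₂
        · simp only [hw', c2, if_true] at *
          simp only [if_neg c1]
          linarith
        · simp only [hw', if_neg c1, if_neg c2]
          linarith
    · intro C hC
      by_contra hN
      apply hC
      have c1 : C ≠ C₁ := fun h => hN (h ▸ hC₁)
      have c2 : C ≠ C₂ := fun h => hN (h ▸ hC₂)
      have c3 : C ≠ B₁ := fun h => hN (h ▸ hw.supp _ h1)
      have c4 : C ≠ B₂ := fun h => hN (h ▸ hw.supp _ h2)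
      have c5 : w C = 0 := by
        by_contra h
        exact hN (hw.supp C h)
      simp [hw', c1, c2, c3, c4, c5]
    · simp only [hw']
      rw [sum_sub_distrib, sum_sub_distrib, sum_add_distrib, sum_add_distrib, hw.one,
        ← mul_sum, ← mul_sum, ← mul_sum, ← mul_sum]
      simp
    · intro e
      have : ∀ C : Finset α, w' C * ind C e = w C * ind C e +
          ε * (if C = C₁ then ind C e else 0) + ε * (if C = C₂ then ind C e else 0) -
          ε * (if C = B₁ then ind C e else 0) - ε * (if C = B₂ then ind C e else 0) := by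
        intro C
        simp only [hw']
        split_ifs <;> ring
      simp only [this]
      rw [sum_sub_distrib, sum_sub_distrib, sum_add_distrib, sum_add_distrib, hw.eq,
        ← mul_sum, ← mul_sum, ← mul_sum, ← mul_sum]
      simp only [sum_ite_eq', mem_univ, if_true]
      have := hind e
      have h5 : ε * (ind B₁ e + ind B₂ e) = ε * (ind C₁ e + ind C₂ e) := by rw [this]
      linarith
  have hval : ∑ C, w' C * (φ C : ℝ) = ∑ C, w C * (φ C : ℝ) + ε * φ C₁ + ε * φ C₂ -
      ε * φ B₁ - ε * φ B₂ := by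
    have : ∀ C : Finset α, w' C * (φ C : ℝ) = w C * (φ C : ℝ) +
        ε * (if C = C₁ then (φ C : ℝ) else 0) + ε * (if C = C₂ then (φ C : ℝ) else 0) -
        ε * (if C = B₁ then (φ C : ℝ) else 0) - ε * (if C = B₂ then (φ C : ℝ) else 0) := by
      intro C
      simp only [hw']
      split_ifs <;> ring
    simp only [this]
    rw [sum_sub_distrib, sum_sub_distrib, sum_add_distrib, sum_add_distrib,
      ← mul_sum, ← mul_sum, ← mul_sum, ← mul_sum]
    simp only [sum_ite_eq', mem_univ, if_true]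
  have hle := isMinOn_iff.1 hmin w' hrep
  rw [hval] at hle
  have hlt' : (φ C₁ : ℝ) + φ C₂ < φ B₁ + φ B₂ := by exact_mod_cast hlt
  have := mul_lt_mul_of_pos_left hlt' hε0
  linarith

/-- the sum of the coordinates in `K` is the mean of `|B ∩ K|` -/
theorem Rep.sum_eq {N : Finset α → Prop} {x : α → ℝ} {w : Finset α → ℝ} (h : Rep N x w)
    (K : Finset α) : ∑ e ∈ K, x e = ∑ B, w B * ((B ∩ K).card : ℝ) := sum_weights h.eq K

/-- some member has at most `k` elements in `K`, if the sum is at most `k` and some member has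
more -/
theorem Rep.exists_lt {N : Finset α → Prop} {x : α → ℝ} {w : Finset α → ℝ} (h : Rep N x w)
    (K : Finset α) (k : ℕ) (hk : ∑ e ∈ K, x e ≤ k) {B : Finset α} (hB : w B ≠ 0)
    (hBk : k < (B ∩ K).card) : ∃ C, w C ≠ 0 ∧ (C ∩ K).card < k := by
  by_contra hcon
  push Not at hcon
  rw [h.sum_eq] at hk
  have h1 : ∑ C, w C * (k : ℝ) < ∑ C, w C * ((C ∩ K).card : ℝ) := by
    apply sum_lt_sum
    · intro C _
      by_cases hC : w C = 0
      · simp [hC]
      · exact mul_le_mul_of_nonneg_left (by exact_mod_cast hcon C hC) (h.nn C)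
    · exact ⟨B, mem_univ _, mul_lt_mul_of_pos_left (by exact_mod_cast hBk)
        (lt_of_le_of_ne (h.nn B) (Ne.symm hB))⟩
  rw [← sum_mul, h.one, one_mul] at h1
  linarith

theorem Rep.exists_gt {N : Finset α → Prop} {x : α → ℝ} {w : Finset α → ℝ} (h : Rep N x w)
    (K : Finset α) (k : ℕ) (hk : (k : ℝ) ≤ ∑ e ∈ K, x e) {B : Finset α} (hB : w B ≠ 0)
    (hBk : (B ∩ K).card < k) : ∃ C, w C ≠ 0 ∧ k < (C ∩ K).card := by
  by_contra hcon
  push Not at hcon
  rw [h.sum_eq] at hk
  have h1 : ∑ C, w C * ((C ∩ K).card : ℝ) < ∑ C, w C * (k : ℝ) := by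
    apply sum_lt_sum
    · intro C _
      by_cases hC : w C = 0
      · simp [hC]
      · exact mul_le_mul_of_nonneg_left (by exact_mod_cast hcon C hC) (h.nn C)
    · exact ⟨B, mem_univ _, mul_lt_mul_of_pos_left (by exact_mod_cast hBk)
        (lt_of_le_of_ne (h.nn B) (Ne.symm hB))⟩
  rw [← sum_mul, h.one, one_mul] at h1
  linarith

/-- a swap of `i ∈ B ∖ C` and `j ∈ C ∖ B` -/
theorem ind_swap {B C : Finset α} {i j : α} (hi : i ∈ B) (hiC : i ∉ C) (hj : j ∈ C)
    (hjB : j ∉ B) (e : α) :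
    ind B e + ind C e = ind (insert j (B.erase i)) e + ind (insert i (C.erase j)) e := by
  have hij : i ≠ j := fun h => hjB (h ▸ hi)
  unfold ind
  by_cases h1 : e = i
  · subst h1
    simp [hi, hiC, hij]
  · by_cases h2 : e = j
    · subst h2
      simp [hj, hjB, h1]
    · simp [h1, h2]

end Pool.Agent.FMS75
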