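import Pool.Agent.FMS75.Lin

set_option autoImplicit false

/-!
The matroids of rank three on five classes `a`, `b`, `g`, `d` and a fifth class, in which all triples
are bases with the possible exception of `{b, g, d}`: their polytopes are cut by the hyperplane
`x_g + x_d = 1` into two matroid polytopes.
-/

namespace Pool.Agent.FMS75

open Finset Pool.Agent.R138.Pg

section
variable {α β : Type*} [Fintype α] [DecidableEq α] [Fintype β] [DecidableEq β]

/-- pull back of a family along a map `κ`, inside `T` -/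
def cm (T : Finset α) (κ : α → β) (𝓑 : Finset β → Prop) (B : Finset α) : Prop :=
  B ⊆ T ∧ Set.InjOn κ (B : Set α) ∧ 𝓑 (B.image κ)

theorem image_erase_injOn {κ : α → β} {A : Finset α} (hA : Set.InjOn κ (A : Set α)) {e : α}
    (he : e ∈ A) : (A.erase e).image κ = (A.image κ).erase (κ e) := by
  ext t
  simp only [mem_image, mem_erase]
  constructor
  · rintro ⟨s, ⟨hs, hsA⟩, rfl⟩
    exact ⟨fun h => hs (hA (by exact_mod_cast hsA) (by exact_mod_cast he) h), s, hsA, rfl⟩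
  · rintro ⟨ht, s, hsA, rfl⟩
    exact ⟨s, ⟨fun h => ht (by rw [h]), hsA⟩, rfl⟩

theorem cm_repl {T : Finset α} {κ : α → β} {𝓑 𝓑' : Finset β → Prop} {A : Finset α}
    (hA : cm T κ 𝓑 A) {e j : α} (he : e ∈ A) (hjT : j ∈ T)
    (hj : κ j ∉ (A.image κ).erase (κ e))
    (hB : 𝓑' (insert (κ j) ((A.image κ).erase (κ e)))) : cm T κ 𝓑' (insert j (A.erase e)) := by
  obtain ⟨h1, h2, h3⟩ := hA
  refine ⟨insert_subset hjT ((erase_subset _ _).trans h1), ?_, ?_⟩
  · rw [← image_erase_injOn h2 he] at hj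
    rw [coe_insert, Set.injOn_insert]
    · refine ⟨h2.mono (by exact_mod_cast erase_subset _ _), ?_⟩
      rintro ⟨s, hs, hs2⟩
      exact hj (mem_image.2 ⟨s, by exact_mod_cast hs, hs2⟩)
    · intro h
      exact hj (mem_image.2 ⟨j, by exact_mod_cast h, rfl⟩)
  · rw [image_insert, image_erase_injOn h2 he]
    exact hB

theorem bf_cm {r : ℕ} {T : Finset α} {κ : α → β} {𝓑 : Finset β → Prop} (h : BF r 𝓑)
    (hne : ∃ B, cm T κ 𝓑 B) : BF r (cm T κ 𝓑) := by
  refine ⟨?_, hne, ?_⟩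
  · rintro B ⟨_, h2, h3⟩
    rw [← h.card _ h3, card_image_of_injOn h2]
  · intro A B hA hB e he heB
    obtain ⟨hA1, hA2, hA3⟩ := hA
    obtain ⟨hB1, hB2, hB3⟩ := hB
    by_cases hc : κ e ∈ B.image κ
    · obtain ⟨j, hj, hje⟩ := mem_image.1 hc
      have hjA : j ∉ A := by
        intro h1
        have := hA2 (by exact_mod_cast h1) (by exact_mod_cast he) hje
        exact heB (this ▸ hj)
      refine ⟨j, hj, hjA, cm_repl ⟨hA1, hA2, hA3⟩ he (hB1 hj) ?_ ?_⟩
      · rw [hje]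
        simp
      · rw [hje, insert_erase (mem_image_of_mem _ he)]
        exact hA3
    · obtain ⟨f, hf, hfA, hfB⟩ := h.exch _ _ hA3 hB3 (κ e) (mem_image_of_mem _ he) hc
      obtain ⟨j, hj, rfl⟩ := mem_image.1 hf
      have hjA : j ∉ A := fun h1 => hfA (mem_image_of_mem _ h1)
      exact ⟨j, hj, hjA, cm_repl ⟨hA1, hA2, hA3⟩ he (hB1 hj)
        (fun h1 => hfA (mem_of_mem_erase h1)) hfB⟩

end

/-- all triples, with the possible exception of `{1, 2, 3}` -/
def F5 (ε : Bool) (C : Finset (Fin 5)) : Prop := C.card = 3 ∧ (ε = true ∨ C ≠ {1, 2, 3})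

/-- the triples of `F5` which do not contain `2` and `3` -/
def N15 (ε : Bool) (C : Finset (Fin 5)) : Prop := F5 ε C ∧ ¬ (2 ∈ C ∧ 3 ∈ C)

/-- the triples of `F5` which contain `2` or `3` -/
def N25 (ε : Bool) (C : Finset (Fin 5)) : Prop := F5 ε C ∧ (2 ∈ C ∨ 3 ∈ C)

instance (ε : Bool) (C : Finset (Fin 5)) : Decidable (F5 ε C) :=
  inferInstanceAs (Decidable (_ ∧ _))
instance (ε : Bool) (C : Finset (Fin 5)) : Decidable (N15 ε C) :=
  inferInstanceAs (Decidable (_ ∧ _))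
instance (ε : Bool) (C : Finset (Fin 5)) : Decidable (N25 ε C) :=
  inferInstanceAs (Decidable (_ ∧ _))

theorem exch_N15 : ∀ (ε : Bool) (A B : Finset (Fin 5)), N15 ε A → N15 ε B → ∀ e ∈ A, e ∉ B →
    ∃ f ∈ B, f ∉ A ∧ N15 ε (insert f (A.erase e)) := by decide +kernel

theorem exch_N25 : ∀ (ε : Bool) (A B : Finset (Fin 5)), N25 ε A → N25 ε B → ∀ e ∈ A, e ∉ B →
    ∃ f ∈ B, f ∉ A ∧ N25 ε (insert f (A.erase e)) := by decide +kernel

theorem fin1 : ∀ (ε : Bool) (D : Finset (Fin 5)), F5 ε D → 2 ∉ D → 3 ∉ D → D = {0, 1, 4} := by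
  decide +kernel

theorem fin2 : ∀ (ε : Bool) (D : Finset (Fin 5)), F5 ε D → 2 ∈ D → 3 ∈ D → 0 ∈ D →
    D = {0, 2, 3} := by
  decide +kernel

theorem fin3 : ∀ ε : Bool, F5 ε (insert 1 (({0, 2, 3} : Finset (Fin 5)).erase 2)) := by
  decide +kernel

theorem fin4 : ∀ ε : Bool, F5 ε (insert 2 (({0, 1, 4} : Finset (Fin 5)).erase 1)) := by
  decide +kernel

theorem fin5 : ∀ (ε : Bool) (D : Finset (Fin 5)), F5 ε D → 2 ∈ D → 3 ∈ D → 0 ∉ D →
    F5 ε (insert 0 (D.erase 2)) := by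
  decide +kernel

theorem fin6 : ∀ ε : Bool, F5 ε (insert 2 (({0, 1, 4} : Finset (Fin 5)).erase 0)) := by
  decide +kernel

theorem fin7 : ∀ ε : Bool, F5 ε {0, 1, 4} ∧ N15 ε {0, 1, 4} ∧ F5 ε {2, 3, 4} ∧
    N25 ε {2, 3, 4} := by
  decide +kernel

theorem ex_N15 : ∀ ε : Bool, ∃ B, N15 ε B := fun ε => ⟨_, (fin7 ε).2.1⟩

theorem ex_N25 : ∀ ε : Bool, ∃ B, N25 ε B := fun ε => ⟨_, (fin7 ε).2.2.2⟩

theorem bf_N15 (ε : Bool) : BF 3 (N15 ε) := ⟨fun B hB => hB.1.1, ex_N15 ε, exch_N15 ε⟩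

theorem bf_N25 (ε : Bool) : BF 3 (N25 ε) := ⟨fun B hB => hB.1.1, ex_N25 ε, exch_N25 ε⟩

section
open Pool.Agent.R567.MSub
variable {n : ℕ}

/-- data: the classes of `a`, `b`, `g`, `d` are singletons, the fifth class contains `z` -/
structure Dat (T : Finset (Fin n)) (κ : Fin n → Fin 5) (a b g d z : Fin n) : Prop where
  ha : κ a = 0
  hb : κ b = 1
  hg : κ g = 2
  hd : κ d = 3
  hz : κ z = 4
  ha' : ∀ e, κ e = 0 → e = a
  hb' : ∀ e, κ e = 1 → e = b
  hg' : ∀ e, κ e = 2 → e = g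
  hd' : ∀ e, κ e = 3 → e = d
  aT : a ∈ T
  bT : b ∈ T
  gT : g ∈ T
  dT : d ∈ T
  zT : z ∈ T

variable {T : Finset (Fin n)} {κ : Fin n → Fin 5} {a b g d z : Fin n} {ε : Bool}

theorem Dat.mem_image (h : Dat T κ a b g d z) (B : Finset (Fin n)) :
    (0 ∈ B.image κ ↔ a ∈ B) ∧ (1 ∈ B.image κ ↔ b ∈ B) ∧ (2 ∈ B.image κ ↔ g ∈ B) ∧
      (3 ∈ B.image κ ↔ d ∈ B) := by
  have key : ∀ (c : Fin 5) (t : Fin n), κ t = c → (∀ e, κ e = c → e = t) →
      (c ∈ B.image κ ↔ t ∈ B) := by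
    intro c t h1 h2
    rw [Finset.mem_image]
    constructor
    · rintro ⟨e, he, hec⟩
      rw [← h2 e hec]; exact he
    · intro ht
      exact ⟨t, ht, h1⟩
  exact ⟨key 0 a h.ha h.ha', key 1 b h.hb h.hb', key 2 g h.hg h.hg', key 3 d h.hd h.hd'⟩

/-- a base with `g`, `d` and a base without them can be exchanged -/
theorem Dat.swap (h : Dat T κ a b g d z) {B C : Finset (Fin n)} (hB : cm T κ (F5 ε) B)
    (hC : cm T κ (F5 ε) C) (hgB : g ∈ B) (hdB : d ∈ B) (hgC : g ∉ C) (hdC : d ∉ C) :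
    ∃ j ∈ C, j ∉ B ∧ j ≠ g ∧ j ≠ d ∧ cm T κ (F5 ε) (insert j (B.erase g)) ∧
      cm T κ (F5 ε) (insert g (C.erase j)) := by
  obtain ⟨iB0, iB1, iB2, iB3⟩ := h.mem_image B
  obtain ⟨iC0, iC1, iC2, iC3⟩ := h.mem_image C
  have hda : a ≠ g := fun e => by have := h.ha; rw [e, h.hg] at this; exact absurd this (by decide)
  have hda2 : a ≠ d := fun e => by have := h.ha; rw [e, h.hd] at this; exact absurd this (by decide)
  have hdb : b ≠ g := fun e => by have := h.hb; rw [e, h.hg] at this; exact absurd this (by decide)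
  have hdb2 : b ≠ d := fun e => by have := h.hb; rw [e, h.hd] at this; exact absurd this (by decide)
  -- the image of `C`
  have hCi : C.image κ = {0, 1, 4} := by
    have h1 := hC.2.2
    rw [← iC2] at hgC
    rw [← iC3] at hdC
    exact fin1 ε _ h1 hgC hdC
  have haC : a ∈ C := by rw [← iC0, hCi]; decide
  have hbC : b ∈ C := by rw [← iC1, hCi]; decide
  have hB2 : 2 ∈ B.image κ := iB2.2 hgB
  have hB3 : 3 ∈ B.image κ := iB3.2 hdB
  by_cases haB : a ∈ B
  · have hB0 : 0 ∈ B.image κ := iB0.2 haB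
    have hBi : B.image κ = {0, 2, 3} := by
      exact fin2 ε _ hB.2.2 hB2 hB3 hB0
    have hbB : b ∉ B := by rw [← iB1, hBi]; decide
    refine ⟨b, hbC, hbB, hdb, hdb2, ?_, ?_⟩
    · refine cm_repl hB hgB h.bT ?_ ?_
      · rw [hBi, h.hb, h.hg]; decide
      · rw [hBi, h.hb, h.hg]; exact fin3 ε
    · refine cm_repl hC hbC h.gT ?_ ?_
      · rw [hCi, h.hb, h.hg]; decide
      · rw [hCi, h.hb, h.hg]; exact fin4 ε
  · have hB0 : 0 ∉ B.image κ := fun e => haB (iB0.1 e)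
    refine ⟨a, haC, haB, hda, hda2, ?_, ?_⟩
    · refine cm_repl hB hgB h.aT ?_ ?_
      · rw [h.ha, h.hg]
        exact fun e => hB0 (mem_of_mem_erase e)
      · rw [h.ha, h.hg]
        exact fin5 ε _ hB.2.2 hB2 hB3 hB0
    · refine cm_repl hC haC h.gT ?_ ?_
      · rw [hCi, h.ha, h.hg]; decide
      · rw [hCi, h.ha, h.hg]; exact fin6 ε

theorem cm_card {ε : Bool} {B : Finset (Fin n)} (hB : cm T κ (F5 ε) B) : B.card = 3 := by
  rw [← hB.2.2.1, card_image_of_injOn hB.2.1]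

theorem card_inter_pair {g d : Fin n} (hgd : g ≠ d) (B : Finset (Fin n)) :
    (B ∩ {g, d}).card = (if g ∈ B then 1 else 0) + (if d ∈ B then 1 else 0) :=
  card_inter2 B hgd

theorem Dat.gd (h : Dat T κ a b g d z) : g ≠ d := by
  intro e
  have := h.hg
  rw [e, h.hd] at this
  exact absurd this (by decide)

theorem Dat.cover1 (h : Dat T κ a b g d z) {x : Fin n → ℝ} (hx : x ∈ fpoly (cm T κ (F5 ε)))
    (hle : ∑ e ∈ ({g, d} : Finset (Fin n)), x e ≤ 1) : x ∈ fpoly (cm T κ (N15 ε)) := by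
  have hgd := h.gd
  have h0 := reduce (N := cm T κ (F5 ε)) (fun B => if g ∈ B ∧ d ∈ B then 1 else 0) hx ?_
  · refine fpoly_mono ?_ h0
    rintro B ⟨hB, hφ⟩
    obtain ⟨i0, i1, i2, i3⟩ := h.mem_image B
    refine ⟨hB.1, hB.2.1, hB.2.2, ?_⟩
    rw [i2, i3]
    intro hc
    rw [if_pos hc] at hφ
    exact one_ne_zero hφ
  · intro w hw B hB hφ
    have hBgd : g ∈ B ∧ d ∈ B := by
      by_contra hcon
      exact hφ (if_neg hcon)
    obtain ⟨C, hC, hCl⟩ := hw.exists_lt {g, d} 1 (by exact_mod_cast hle) hB (by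
      rw [card_inter_pair hgd, if_pos hBgd.1, if_pos hBgd.2]; norm_num)
    rw [card_inter_pair hgd] at hCl
    have hgC : g ∉ C := by
      intro hc
      rw [if_pos hc] at hCl
      omega
    have hdC : d ∉ C := by
      intro hc
      rw [if_pos hc] at hCl
      omega
    obtain ⟨j, hjC, hjB, hjg, hjd, h1, h2⟩ :=
      h.swap (hw.supp B hB) (hw.supp C hC) hBgd.1 hBgd.2 hgC hdC
    refine ⟨B, C, _, _, ?_, hB, hC, h1, h2, ?_, ?_⟩
    · rintro rfl
      exact hgC hBgd.1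
    · intro e
      exact ind_swap hBgd.1 hgC hjC hjB e
    · have e1 : ¬ (g ∈ insert j (B.erase g) ∧ d ∈ insert j (B.erase g)) := by
        simp [hjg.symm]
      have e2 : ¬ (g ∈ insert g (C.erase j) ∧ d ∈ insert g (C.erase j)) := by
        simp [hgd.symm, hdC]
      simp only [if_neg e1, if_neg e2, if_pos hBgd]
      omega

theorem Dat.cover2 (h : Dat T κ a b g d z) {x : Fin n → ℝ} (hx : x ∈ fpoly (cm T κ (F5 ε)))
    (hle : 1 ≤ ∑ e ∈ ({g, d} : Finset (Fin n)), x e) : x ∈ fpoly (cm T κ (N25 ε)) := by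
  have hgd := h.gd
  have h0 := reduce (N := cm T κ (F5 ε)) (fun B => if g ∉ B ∧ d ∉ B then 1 else 0) hx ?_
  · refine fpoly_mono ?_ h0
    rintro B ⟨hB, hφ⟩
    obtain ⟨i0, i1, i2, i3⟩ := h.mem_image B
    refine ⟨hB.1, hB.2.1, hB.2.2, ?_⟩
    rw [i2, i3]
    by_contra hc
    rw [if_pos (not_or.1 hc)] at hφ
    exact one_ne_zero hφ
  · intro w hw C hC hφ
    have hCgd : g ∉ C ∧ d ∉ C := by
      by_contra hcon
      exact hφ (if_neg hcon)
    obtain ⟨B, hB, hBl⟩ := hw.exists_gt {g, d} 1 (by exact_mod_cast hle) hC (by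
      rw [card_inter_pair hgd, if_neg hCgd.1, if_neg hCgd.2]; norm_num)
    rw [card_inter_pair hgd] at hBl
    have hgB : g ∈ B := by
      by_contra hc
      rw [if_neg hc] at hBl
      split_ifs at hBl <;> omega
    have hdB : d ∈ B := by
      by_contra hc
      rw [if_neg hc] at hBl
      split_ifs at hBl <;> omega
    obtain ⟨j, hjC, hjB, hjg, hjd, h1, h2⟩ :=
      h.swap (hw.supp B hB) (hw.supp C hC) hgB hdB hCgd.1 hCgd.2
    refine ⟨B, C, _, _, ?_, hB, hC, h1, h2, ?_, ?_⟩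
    · rintro rfl
      exact hCgd.1 hgB
    · intro e
      exact ind_swap hgB hCgd.1 hjC hjB e
    · have e1 : ¬ (g ∉ insert j (B.erase g) ∧ d ∉ insert j (B.erase g)) := by
        simp [hgd.symm, hdB]
      have e2 : ¬ (g ∉ insert g (C.erase j) ∧ d ∉ insert g (C.erase j)) := by
        simp
      simp only [if_neg e1, if_neg e2, if_pos hCgd]
      omega

/-- the triples `{a, b, z}` and `{g, d, z}` -/
theorem Dat.triple (h : Dat T κ a b g d z) {s t : Fin n} (hs : s ∈ T) (ht : t ∈ T)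
    {𝓑 : Finset (Fin 5) → Prop} (hst : κ s ≠ κ t) (hs4 : κ s ≠ 4) (ht4 : κ t ≠ 4)
    (hB : 𝓑 {κ s, κ t, 4}) : cm T κ 𝓑 {s, t, z} := by
  refine ⟨?_, ?_, ?_⟩
  · intro e he
    simp only [mem_insert, mem_singleton] at he
    rcases he with rfl | rfl | rfl
    · exact hs
    · exact ht
    · exact h.zT
  · intro e he f hf hef
    simp only [coe_insert, coe_singleton, Set.mem_insert_iff, Set.mem_singleton_iff] at he hf
    rcases he with rfl | rfl | rfl <;> rcases hf with rfl | rfl | rfl <;>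
      first
      | rfl
      | exact absurd hef hst
      | exact absurd hef.symm hst
      | exact absurd (hef.trans h.hz) hs4
      | exact absurd (hef.trans h.hz) ht4
      | exact absurd (hef.symm.trans h.hz) hs4
      | exact absurd (hef.symm.trans h.hz) ht4
  · rw [image_insert, image_insert, image_singleton, h.hz]
    exact hB

/-- the polytope of a matroid of this form has a nontrivial matroid subdivision -/
theorem Dat.decomposable (h : Dat T κ a b g d z) {M : Matroid (Fin n)}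
    (hM : bp M = cm T κ (F5 ε)) :
    ∃ C, IsMatroidSubdivision M C ∧ polytope M ∉ C := by
  have hgd := h.gd
  have t1 : cm T κ (F5 ε) {a, b, z} := h.triple h.aT h.bT (by rw [h.ha, h.hb]; decide)
    (by rw [h.ha]; decide) (by rw [h.hb]; decide) (by rw [h.ha, h.hb]; exact (fin7 ε).1)
  have t1' : cm T κ (N15 ε) {a, b, z} := h.triple h.aT h.bT (by rw [h.ha, h.hb]; decide)
    (by rw [h.ha]; decide) (by rw [h.hb]; decide) (by rw [h.ha, h.hb]; exact (fin7 ε).2.1)
  have t2 : cm T κ (F5 ε) {g, d, z} := h.triple h.gT h.dT (by rw [h.hg, h.hd]; decide)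
    (by rw [h.hg]; decide) (by rw [h.hd]; decide) (by rw [h.hg, h.hd]; exact (fin7 ε).2.2.1)
  have t2' : cm T κ (N25 ε) {g, d, z} := h.triple h.gT h.dT (by rw [h.hg, h.hd]; decide)
    (by rw [h.hg]; decide) (by rw [h.hd]; decide) (by rw [h.hg, h.hd]; exact (fin7 ε).2.2.2)
  set 𝓠 : Set (Finset (Fin n) → Prop) := {N | N = cm T κ (N15 ε) ∨ N = cm T κ (N25 ε)} with h𝓠
  have sub1 : ∀ B, cm T κ (N15 ε) B → cm T κ (F5 ε) B := fun B hB => ⟨hB.1, hB.2.1, hB.2.2.1⟩
  have sub2 : ∀ B, cm T κ (N25 ε) B → cm T κ (F5 ε) B := fun B hB => ⟨hB.1, hB.2.1, hB.2.2.1⟩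
  have u1 : ∀ x ∈ fpoly (cm T κ (N15 ε)), ∑ e ∈ ({g, d} : Finset (Fin n)), x e ≤ 1 := by
    intro x hx
    have := sum_le hx {g, d} 1 (by
      intro B hB
      obtain ⟨i0, i1, i2, i3⟩ := h.mem_image B
      have h1 := hB.2.2.2
      rw [i2, i3] at h1
      rw [card_inter_pair hgd]
      by_cases hc : g ∈ B
      · rw [if_pos hc, if_neg (fun e => h1 ⟨hc, e⟩)]
      · rw [if_neg hc]
        split_ifs <;> omega)
    exact_mod_cast this
  have u2 : ∀ x ∈ fpoly (cm T κ (N25 ε)), 1 ≤ ∑ e ∈ ({g, d} : Finset (Fin n)), x e := by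
    intro x hx
    have := sum_ge hx {g, d} 1 (by
      intro B hB
      obtain ⟨i0, i1, i2, i3⟩ := h.mem_image B
      have h1 := hB.2.2.2
      rw [i2, i3] at h1
      rw [card_inter_pair hgd]
      rcases h1 with h1 | h1
      · rw [if_pos h1]; omega
      · rw [if_pos h1]; omega)
    exact_mod_cast this
  have hface : ∀ N ∈ 𝓠, ∀ N' ∈ 𝓠, IsFace (fpoly N) (fpoly N ∩ fpoly N') := by
    rintro N (rfl | rfl) N' (rfl | rfl)
    · rw [Set.inter_self]; exact face_refl (convex_fp _)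
    · have h4 := face_of_le (convex_fp (cm T κ (N15 ε))) (sF {g, d}) 1
        (fun x hx => by rw [sF_apply]; exact u1 x hx)
      have h5 : fpoly (cm T κ (N15 ε)) ∩ {x | sF {g, d} x = 1} =
          fpoly (cm T κ (N15 ε)) ∩ fpoly (cm T κ (N25 ε)) := by
        ext x
        simp only [Set.mem_inter_iff, Set.mem_ofPred_eq, sF_apply]
        constructor
        · rintro ⟨a1, b1⟩
          exact ⟨a1, h.cover2 (fpoly_mono sub1 a1) b1.ge⟩
        · rintro ⟨a1, b1⟩
          exact ⟨a1, le_antisymm (u1 x a1) (u2 x b1)⟩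
      rwa [h5] at h4
    · have h4 := face_of_le (convex_fp (cm T κ (N25 ε))) (-sF {g, d}) (-1)
        (fun x hx => by
          rw [LinearMap.neg_apply, sF_apply]
          have := u2 x hx
          linarith)
      have h5 : fpoly (cm T κ (N25 ε)) ∩ {x | (-sF {g, d}) x = -1} =
          fpoly (cm T κ (N25 ε)) ∩ fpoly (cm T κ (N15 ε)) := by
        ext x
        simp only [Set.mem_inter_iff, Set.mem_ofPred_eq, LinearMap.neg_apply, sF_apply, neg_inj]
        constructor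
        · rintro ⟨a1, b1⟩
          exact ⟨a1, h.cover1 (fpoly_mono sub2 a1) b1.le⟩
        · rintro ⟨a1, b1⟩
          exact ⟨a1, le_antisymm (u1 x b1) (u2 x a1)⟩
      rwa [h5] at h4
    · rw [Set.inter_self]; exact face_refl (convex_fp _)
  refine ⟨faces 𝓠, ?_, ?_⟩
  · refine faces_subdivision (r := 3) ?_ hface ?_ ?_
    · rintro N (rfl | rfl)
      · exact bf_cm (bf_N15 ε) ⟨_, t1'⟩
      · exact bf_cm (bf_N25 ε) ⟨_, t2'⟩
    · intro x hx
      rw [hM] at hx
      rcases le_total (∑ e ∈ ({g, d} : Finset (Fin n)), x e) 1 with hc | hc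
      · exact ⟨_, Or.inl rfl, h.cover1 hx hc⟩
      · exact ⟨_, Or.inr rfl, h.cover2 hx hc⟩
    · rintro N (rfl | rfl) B hB
      · rw [hM]; exact sub1 B hB
      · rw [hM]; exact sub2 B hB
  · rw [polytope_eq, hM]
    rintro ⟨N, (rfl | rfl), hF⟩
    · have h1 := ind_mem_iff.1 (face_subset hF (ind_mem t2))
      obtain ⟨i0, i1, i2, i3⟩ := h.mem_image ({g, d, z} : Finset (Fin n))
      apply h1.2.2.2
      rw [i2, i3]
      simp
    · have h1 := ind_mem_iff.1 (face_subset hF (ind_mem t1))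
      obtain ⟨i0, i1, i2, i3⟩ := h.mem_image ({a, b, z} : Finset (Fin n))
      have h2 := h1.2.2.2
      rw [i2, i3] at h2
      have hκ : ∀ t ∈ ({a, b, z} : Finset (Fin n)), κ t ≠ 2 ∧ κ t ≠ 3 := by
        intro t ht
        simp only [mem_insert, mem_singleton] at ht
        rcases ht with rfl | rfl | rfl
        · rw [h.ha]; decide
        · rw [h.hb]; decide
        · rw [h.hz]; decide
      rcases h2 with h2 | h2
      · exact (hκ g h2).1 h.hg
      · exact (hκ d h2).2 h.hd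

end

end Pool.Agent.FMS75
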