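import Pool.Agent.FMS75.Mono

set_option autoImplicit false

/-!
The cell beyond the line `{0, 1, 2, 3}`.
-/

namespace Pool.Agent.FMS75

open Finset Pool.Agent.R138.Pg
open Pool.Agent.R567.MSub (polytope)

/-- the line -/
abbrev A4 : Finset (Fin 9) := {0, 1, 2, 3}

theorem fin_A4 : ∀ a ∈ A4, ∃ b g d : Fin 9, A4 = {a, b, g, d} ∧ a ≠ b ∧ a ≠ g ∧ a ≠ d ∧ b ≠ g ∧
    b ≠ d ∧ g ≠ d := by decide +kernel

theorem fin_pair : ∀ a ∈ A4, ∀ b ∈ A4, a ≠ b → ∃ g ∈ A4, ∃ d ∈ A4, a ≠ g ∧ a ≠ d ∧ b ≠ g ∧
    b ≠ d ∧ g ≠ d ∧ A4 = {a, b, g, d} := by decide +kernel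

section
variable {n : ℕ} {A : Finset (Fin n)}

/-- moving the point outside of `A` -/
theorem aug {N : Matroid (Fin n)} (hN : BF 3 (bp N)) (hA : ∀ B, bp N B → 2 ≤ (B ∩ A).card)
    {z y u v : Fin n} (hz : z ∉ A) (hy : y ∉ A) {B0 : Finset (Fin n)} (hB0 : bp N B0)
    (hzB : z ∈ B0) (h : D (bp N) {y} u v) : D (bp N) {z} u v := by
  by_cases hzy : z = y
  · rw [hzy]; exact h
  obtain ⟨huv, huy, hvy⟩ := h.spec hN (I := {y}) rfl
  have hi : N.Indep {z} := by
    have h1 : N.IsBase (B0 : Set (Fin n)) := hB0
    exact h1.indep.subset (by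
      intro t ht
      rw [Set.mem_singleton_iff] at ht
      rw [ht]
      exact_mod_cast hzB)
  have hb : N.IsBase ((insert u (insert v {y}) : Finset (Fin n)) : Set (Fin n)) := h
  obtain ⟨C, hC, hzC, hCs⟩ := hi.exists_isBase_subset_union_isBase hb
  obtain ⟨C, rfl⟩ := (Set.toFinite C).exists_finset_coe
  have hCN : bp N C := hC
  have hz' : z ∈ C := by
    have := hzC (Set.mem_singleton z)
    exact_mod_cast this
  have hCsub : ∀ t ∈ C, t = z ∨ t = u ∨ t = v ∨ t = y := by
    intro t ht
    have h1 := hCs (show t ∈ (C : Set (Fin n)) by exact_mod_cast ht)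
    rw [Set.mem_union, Set.mem_singleton_iff] at h1
    rcases h1 with h1 | h1
    · exact Or.inl h1
    · right
      rw [mem_coe] at h1
      simpa using h1
  have hs : C ∩ A ⊆ {u, v} := by
    intro t ht
    rw [mem_inter] at ht
    rcases hCsub t ht.1 with rfl | h1 | h1 | rfl
    · exact absurd ht.2 hz
    · simp [h1]
    · simp [h1]
    · exact absurd ht.2 hy
  have h2 : C ∩ A = {u, v} := eq_of_subset_of_card_le hs ((card_le_two).trans (hA C hCN))
  have hu : u ∈ C := (mem_inter.1 (h2 ▸ mem_insert_self u {v} : u ∈ C ∩ A)).1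
  have hv : v ∈ C := (mem_inter.1 (h2 ▸ mem_insert_of_mem (mem_singleton_self v) : v ∈ C ∩ A)).1
  have huA : u ∈ A := (mem_inter.1 (h2 ▸ mem_insert_self u {v} : u ∈ C ∩ A)).2
  have hvA : v ∈ A := (mem_inter.1 (h2 ▸ mem_insert_of_mem (mem_singleton_self v) : v ∈ C ∩ A)).2
  have huz : u ≠ z := fun e => hz (e ▸ huA)
  have hvz : v ≠ z := fun e => hz (e ▸ hvA)
  have h3 : insert u (insert v {z}) = C := by
    apply eq_of_subset_of_card_le
    · intro t ht
      simp only [mem_insert, mem_singleton] at ht
      rcases ht with rfl | rfl | rfl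
      · exact hu
      · exact hv
      · exact hz'
    · rw [hN.card C hCN, card_insert_of_notMem (by simp [huv, huz]), card_pair hvz]
  show bp N (insert u (insert v {z}))
  rw [h3]
  exact hCN

end

/-- the information on the cell -/
structure Beyond (N : Matroid (Fin 9)) : Prop where
  bf : BF 3 (bp N)
  two : ∀ B, bp N B → 2 ≤ (B ∩ A4).card
  full : ∀ a ∈ A4, ∀ b ∈ A4, a ≠ b → D (bp N) {7} a b
  three : ∃ B, bp N B ∧ B ⊆ A4

theorem Beyond.z {N : Matroid (Fin 9)} (h : Beyond N) {z a b : Fin 9} (hz : z ∉ A4)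
    {B0 : Finset (Fin 9)} (hB0 : bp N B0) (hzB : z ∈ B0) (ha : a ∈ A4) (hb : b ∈ A4)
    (hab : a ≠ b) : bp N {a, b, z} :=
  aug h.bf h.two hz (y := 7) (by decide) hB0 hzB (h.full a ha b hb hab)

theorem Beyond.triple {N : Matroid (Fin 9)} (h : Beyond N) {x y : Fin 9} (hx : x ∈ A4)
    (hy : y ∈ A4) (hxy : x ≠ y) : bp N (A4.erase x) ∨ bp N (A4.erase y) := by
  obtain ⟨a, ha, b, hb, hxa, hxb, hya, hyb, hab, hA⟩ := fin_pair x hx y hy hxy
  obtain ⟨B0, hB0, hB0A⟩ := h.three
  have h1 : bp N (insert a (insert b {7})) := h.full a ha b hb hab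
  have ha7 : a ≠ 7 := by rintro rfl; exact absurd ha (by decide)
  have hb7 : b ≠ 7 := by rintro rfl; exact absurd hb (by decide)
  have h7 : (7 : Fin 9) ∉ B0 := fun e => absurd (hB0A e) (by decide)
  obtain ⟨f, hf, hf2, hf3⟩ := h.bf.exch _ _ h1 hB0 7 (by simp) h7
  have he : (insert a (insert b {7}) : Finset (Fin 9)).erase 7 = {a, b} := by
    ext t
    simp only [mem_erase, mem_insert, mem_singleton]
    constructor
    · rintro ⟨h1, h2 | h2 | h2⟩
      · exact Or.inl h2
      · exact Or.inr h2
      · exact absurd h2 h1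
    · rintro (rfl | rfl)
      · exact ⟨ha7, Or.inl rfl⟩
      · exact ⟨hb7, Or.inr (Or.inl rfl)⟩
  rw [he] at hf3
  have hfA := hB0A hf
  rw [hA] at hfA
  simp only [mem_insert, mem_singleton, not_or] at hfA hf2
  have hex : A4.erase x = {y, a, b} := by
    rw [hA, erase_insert]
    simp [hxy, hxa, hxb]
  have hey : A4.erase y = {x, a, b} := by
    rw [hA, Finset.insert_comm, erase_insert]
    simp [hxy.symm, hya, hyb]
  rcases hfA with rfl | rfl | h2 | h2
  · right
    rw [hey]; exact hf3
  · left
    rw [hex]; exact hf3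
  · exact absurd h2 hf2.1
  · exact absurd h2 hf2.2.1

theorem Beyond.center {N : Matroid (Fin 9)} (h : Beyond N) :
    ∃ a ∈ A4, ∀ x ∈ A4, x ≠ a → bp N (A4.erase x) := by
  by_cases hc : ∃ a ∈ A4, ¬ bp N (A4.erase a)
  · obtain ⟨a, ha, hna⟩ := hc
    refine ⟨a, ha, fun x hx hxa => ?_⟩
    rcases h.triple hx ha hxa with h1 | h1
    · exact h1
    · exact absurd h1 hna
  · push Not at hc
    exact ⟨0, by decide, fun x hx _ => hc x hx⟩

/-- the classes -/
def kap (a b g d : Fin 9) (e : Fin 9) : Fin 5 :=
  if e = a then 0 else if e = b then 1 else if e = g then 2 else if e = d then 3 else 4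

theorem Beyond.decomposable {N : Matroid (Fin 9)} (h : Beyond N) :
    ∃ C, Pool.Agent.R567.MSub.IsMatroidSubdivision N C ∧ polytope N ∉ C := by
  classical
  obtain ⟨a, ha, hbase⟩ := h.center
  obtain ⟨b, g, d, hA, hab, hag, had, hbg, hbd, hgd⟩ := fin_A4 a ha
  set κ := kap a b g d with hκ
  have ka : κ a = 0 := by simp [hκ, kap]
  have kb : κ b = 1 := by simp [hκ, kap, hab.symm]
  have kg : κ g = 2 := by simp [hκ, kap, hag.symm, hbg.symm]
  have kd : κ d = 3 := by simp [hκ, kap, had.symm, hbd.symm, hgd.symm]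
  have ko : ∀ e, e ∉ A4 → κ e = 4 := by
    intro e he
    rw [hA] at he
    simp only [mem_insert, mem_singleton, not_or] at he
    simp [hκ, kap, he.1, he.2.1, he.2.2.1, he.2.2.2]
  have ki : ∀ e, κ e ≠ 4 → e ∈ A4 := by
    intro e he
    by_contra hc
    exact he (ko e hc)
  have hinv : ∀ e, (κ e = 0 → e = a) ∧ (κ e = 1 → e = b) ∧ (κ e = 2 → e = g) ∧
      (κ e = 3 → e = d) := by
    intro e
    by_cases he : e ∈ A4
    · rw [hA] at he
      simp only [mem_insert, mem_singleton] at he
      rcases he with rfl | rfl | rfl | rfl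
      · rw [ka]; exact ⟨fun _ => rfl, fun h => absurd h (by decide),
          fun h => absurd h (by decide), fun h => absurd h (by decide)⟩
      · rw [kb]; exact ⟨fun h => absurd h (by decide), fun _ => rfl, fun h => absurd h (by decide), fun h => absurd h (by decide)⟩
      · rw [kg]; exact ⟨fun h => absurd h (by decide), fun h => absurd h (by decide), fun _ => rfl, fun h => absurd h (by decide)⟩
      · rw [kd]; exact ⟨fun h => absurd h (by decide), fun h => absurd h (by decide), fun h => absurd h (by decide), fun _ => rfl⟩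
    · rw [ko e he]; exact ⟨fun h => absurd h (by decide), fun h => absurd h (by decide), fun h => absurd h (by decide), fun h => absurd h (by decide)⟩
  have kinj : ∀ e f, κ e = κ f → κ e ≠ 4 → e = f := by
    intro e f hef he
    obtain ⟨i0, i1, i2, i3⟩ := hinv f
    have he' := ki e he
    rw [hA] at he'
    simp only [mem_insert, mem_singleton] at he'
    rcases he' with rfl | rfl | rfl | rfl
    · exact (i0 (by rw [← hef, ka])).symm
    · exact (i1 (by rw [← hef, kb])).symm
    · exact (i2 (by rw [← hef, kg])).symm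
    · exact (i3 (by rw [← hef, kd])).symm
  set T' : Finset (Fin 9) := univ.filter (fun e => e ∈ A4 ∨ ∃ B, bp N B ∧ e ∈ B) with hT'
  have hTm : ∀ e, e ∈ T' ↔ e ∈ A4 ∨ ∃ B, bp N B ∧ e ∈ B := by
    intro e
    rw [hT', mem_filter]
    exact ⟨fun h => h.2, fun h => ⟨mem_univ _, h⟩⟩
  set ε : Bool := decide (bp N {b, g, d}) with hε
  have haA : a ∈ A4 := ha
  have hbA : b ∈ A4 := by rw [hA]; simp
  have hgA : g ∈ A4 := by rw [hA]; simp
  have hdA : d ∈ A4 := by rw [hA]; simp
  have era : A4.erase a = {b, g, d} := by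
    rw [hA, erase_insert]; simp [hab, hag, had]
  have hdat : Dat T' κ a b g d 7 := by
    refine ⟨ka, kb, kg, kd, ko 7 (by decide), fun e => (hinv e).1, fun e => (hinv e).2.1,
      fun e => (hinv e).2.2.1, fun e => (hinv e).2.2.2, ?_, ?_, ?_, ?_, ?_⟩
    · rw [hTm]; exact Or.inl haA
    · rw [hTm]; exact Or.inl hbA
    · rw [hTm]; exact Or.inl hgA
    · rw [hTm]; exact Or.inl hdA
    · rw [hTm]; exact Or.inr ⟨_, h.full a haA b hbA hab, by simp⟩
  have hcardA : A4.card = 4 := by decide
  apply hdat.decomposable (ε := ε)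
  funext B
  apply propext
  constructor
  · intro hB
    have hBc := h.bf.card B hB
    have hB2 := h.two B hB
    have hBo : (B \ A4).card ≤ 1 := by
      have := card_sdiff_add_card_inter B A4
      omega
    have hinj : Set.InjOn κ (B : Set (Fin 9)) := by
      intro e he f hf hef
      by_cases h4 : κ e = 4
      · have he4 : e ∉ A4 := by
          intro hc
          rw [hA] at hc
          simp only [mem_insert, mem_singleton] at hc
          rcases hc with rfl | rfl | rfl | rfl
          · rw [ka] at h4; exact absurd h4 (by decide)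
          · rw [kb] at h4; exact absurd h4 (by decide)
          · rw [kg] at h4; exact absurd h4 (by decide)
          · rw [kd] at h4; exact absurd h4 (by decide)
        have h4' : κ f = 4 := by rw [← hef, h4]
        have hf4 : f ∉ A4 := by
          intro hc
          rw [hA] at hc
          simp only [mem_insert, mem_singleton] at hc
          rcases hc with rfl | rfl | rfl | rfl
          · rw [ka] at h4'; exact absurd h4' (by decide)
          · rw [kb] at h4'; exact absurd h4' (by decide)
          · rw [kg] at h4'; exact absurd h4' (by decide)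
          · rw [kd] at h4'; exact absurd h4' (by decide)
        exact card_le_one.1 hBo e (mem_sdiff.2 ⟨by exact_mod_cast he, he4⟩) f
          (mem_sdiff.2 ⟨by exact_mod_cast hf, hf4⟩)
      · exact kinj e f hef h4
    refine ⟨?_, hinj, ?_, ?_⟩
    · intro e he
      rw [hTm]
      exact Or.inr ⟨B, hB, he⟩
    · rw [card_image_of_injOn hinj, hBc]
    · by_cases hc : B.image κ = {1, 2, 3}
      · left
        obtain ⟨i0, i1, i2, i3⟩ := hdat.mem_image B
        have hb : b ∈ B := by rw [← i1, hc]; decide
        have hg : g ∈ B := by rw [← i2, hc]; decide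
        have hd : d ∈ B := by rw [← i3, hc]; decide
        have hBeq : {b, g, d} = B := by
          apply eq_of_subset_of_card_le
          · intro t ht
            simp only [mem_insert, mem_singleton] at ht
            rcases ht with rfl | rfl | rfl
            · exact hb
            · exact hg
            · exact hd
          · rw [hBc, card_insert_of_notMem (by simp [hbg, hbd]), card_pair hgd]
        rw [hε, decide_eq_true_eq, hBeq]
        exact hB
      · exact Or.inr hc
  · rintro ⟨hBT, hinj, hcard, hF⟩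
    rw [card_image_of_injOn hinj] at hcard
    by_cases hBA : B ⊆ A4
    · obtain ⟨x, hx, hxB⟩ := exists_mem_notMem_of_card_lt_card
        (show B.card < A4.card by rw [hcard, hcardA]; omega)
      have hBx : B = A4.erase x := by
        apply eq_of_subset_of_card_le
        · intro t ht
          refine mem_erase.2 ⟨?_, hBA ht⟩
          rintro rfl
          exact hxB ht
        · rw [card_erase_of_mem hx, hcard, hcardA]
      by_cases hxa : x = a
      · rw [hxa, era] at hBx
        rw [hBx]
        have himg : B.image κ = {1, 2, 3} := by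
          rw [hBx, image_insert, image_insert, image_singleton, kb, kg, kd]
        rcases hF with hF | hF
        · rw [hε, decide_eq_true_eq] at hF
          exact hF
        · exact absurd himg hF
      · rw [hBx]
        exact hbase x hx hxa
    · obtain ⟨z, hz, hzA⟩ : ∃ z ∈ B, z ∉ A4 := by
        by_contra hcon
        push Not at hcon
        exact hBA hcon
      have hother : ∀ t ∈ B.erase z, t ∈ A4 := by
        intro t ht
        by_contra hc
        rw [mem_erase] at ht
        apply ht.1
        exact hinj (by exact_mod_cast ht.2) (by exact_mod_cast hz) (by rw [ko t hc, ko z hzA])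
      have hec : (B.erase z).card = 2 := by rw [card_erase_of_mem hz, hcard]
      obtain ⟨u, v, huv, huvB⟩ := card_eq_two.1 hec
      have hu : u ∈ A4 := hother u (by rw [huvB]; simp)
      have hv : v ∈ A4 := hother v (by rw [huvB]; simp)
      have hBe : B = {u, v, z} := by
        rw [← insert_erase hz, huvB]
        ext t
        simp only [mem_insert, mem_singleton]
        tauto
      have hzT := (hTm z).1 (hBT hz)
      rcases hzT with hzT | ⟨B0, hB0, hzB0⟩
      · exact absurd hzT hzA
      · rw [hBe]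
        exact h.z hzA hB0 hzB0 hu hv huv

end Pool.Agent.FMS75
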